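import Mathlib

/-!
# Exponential sums: a Fejer kernel bound for a pair of linear forms
-/

set_option autoImplicit false

namespace Pool.Agent.TH42.LA

open Finset

/-- the additive character -/
noncomputable def e (t : ℝ) : ℂ := Complex.exp (((2 * Real.pi * t : ℝ) : ℂ) * Complex.I)

theorem e_add (s t : ℝ) : e (s + t) = e s * e t := by
  unfold e
  rw [← Complex.exp_add]
  congr 1
  push_cast
  ring

theorem e_norm (t : ℝ) : ‖e t‖ = 1 := by
  unfold e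
  exact Complex.norm_exp_ofReal_mul_I _

theorem e_int (n : ℤ) : e (n : ℝ) = 1 := by
  unfold e
  rw [Complex.exp_eq_one_iff]
  exact ⟨n, by push_cast; ring⟩

theorem e_conj (t : ℝ) : (starRingEnd ℂ) (e t) = e (-t) := by
  unfold e
  rw [← Complex.exp_conj]
  congr 1
  rw [map_mul, Complex.conj_ofReal, Complex.conj_I]
  push_cast
  ring

/-- the geometric sum -/
noncomputable def D (N : ℕ) (t : ℝ) : ℂ := ∑ b ∈ range N, e (b * t)

theorem D_norm_le (N : ℕ) (t : ℝ) : ‖D N t‖ ≤ N := by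
  unfold D
  refine (norm_sum_le _ _).trans ?_
  simp [e_norm]

theorem D_sq (N : ℕ) (t : ℝ) : ((‖D N t‖ ^ 2 : ℝ) : ℂ) =
    ∑ p ∈ range N ×ˢ range N, e ((((p.1 : ℕ) : ℝ) - (p.2 : ℕ)) * t) := by
  have h : ((‖D N t‖ ^ 2 : ℝ) : ℂ) = D N t * (starRingEnd ℂ) (D N t) := by
    rw [Complex.mul_conj, Complex.normSq_eq_norm_sq]
  rw [h, Finset.sum_product]
  unfold D
  rw [map_sum, Finset.sum_mul_sum]
  refine sum_congr rfl fun b _ => sum_congr rfl fun c _ => ?_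
  rw [e_conj, ← e_add]
  congr 1
  ring

theorem D_neg (N : ℕ) (t : ℝ) : ‖D N (-t)‖ = ‖D N t‖ := by
  have h : D N (-t) = (starRingEnd ℂ) (D N t) := by
    unfold D
    rw [map_sum]
    refine sum_congr rfl fun b _ => ?_
    rw [e_conj]
    congr 1
    ring
  rw [h, RCLike.norm_conj]

theorem four_sum (N M : ℕ) (α β ρ : ℝ) :
    ∑ p ∈ range N ×ˢ range N, ∑ r ∈ range N ×ˢ range N,
      ‖D M ((((p.1 : ℕ) : ℝ) - (p.2 : ℕ)) * α + (((r.1 : ℕ) : ℝ) - (r.2 : ℕ)) * β + ρ)‖ ^ 2 ≤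
    ∑ z ∈ range M ×ˢ range M,
      ‖D N ((((z.1 : ℕ) : ℝ) - (z.2 : ℕ)) * α)‖ ^ 2 *
        ‖D N ((((z.1 : ℕ) : ℝ) - (z.2 : ℕ)) * β)‖ ^ 2 := by
  set L : ℝ := ∑ p ∈ range N ×ˢ range N, ∑ r ∈ range N ×ˢ range N,
      ‖D M ((((p.1 : ℕ) : ℝ) - (p.2 : ℕ)) * α + (((r.1 : ℕ) : ℝ) - (r.2 : ℕ)) * β + ρ)‖ ^ 2
    with hL
  have hL0 : 0 ≤ L := by
    rw [hL]
    positivity
  have h1 : (L : ℂ) = ∑ z ∈ range M ×ˢ range M, e ((((z.1 : ℕ) : ℝ) - (z.2 : ℕ)) * ρ) *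
      (((‖D N ((((z.1 : ℕ) : ℝ) - (z.2 : ℕ)) * α)‖ ^ 2 : ℝ) : ℂ) *
        ((‖D N ((((z.1 : ℕ) : ℝ) - (z.2 : ℕ)) * β)‖ ^ 2 : ℝ) : ℂ)) := by
    have h2 : (L : ℂ) = ∑ p ∈ range N ×ˢ range N, ∑ r ∈ range N ×ˢ range N,
        ∑ z ∈ range M ×ˢ range M, e ((((z.1 : ℕ) : ℝ) - (z.2 : ℕ)) *
          ((((p.1 : ℕ) : ℝ) - (p.2 : ℕ)) * α + (((r.1 : ℕ) : ℝ) - (r.2 : ℕ)) * β + ρ)) := by
      rw [hL, Complex.ofReal_sum]
      refine sum_congr rfl fun p _ => ?_
      rw [Complex.ofReal_sum]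
      refine sum_congr rfl fun r _ => ?_
      exact D_sq M _
    rw [h2]
    have h3 : ∀ p ∈ range N ×ˢ range N, (∑ r ∈ range N ×ˢ range N,
        ∑ z ∈ range M ×ˢ range M, e ((((z.1 : ℕ) : ℝ) - (z.2 : ℕ)) *
          ((((p.1 : ℕ) : ℝ) - (p.2 : ℕ)) * α + (((r.1 : ℕ) : ℝ) - (r.2 : ℕ)) * β + ρ))) =
        ∑ z ∈ range M ×ˢ range M, ∑ r ∈ range N ×ˢ range N, e ((((z.1 : ℕ) : ℝ) - (z.2 : ℕ)) *
          ((((p.1 : ℕ) : ℝ) - (p.2 : ℕ)) * α + (((r.1 : ℕ) : ℝ) - (r.2 : ℕ)) * β + ρ)) :=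
      fun p _ => Finset.sum_comm
    rw [sum_congr rfl h3, Finset.sum_comm]
    refine sum_congr rfl fun z _ => ?_
    rw [D_sq, D_sq, Finset.sum_mul_sum, Finset.mul_sum]
    refine sum_congr rfl fun p _ => ?_
    rw [Finset.mul_sum]
    refine sum_congr rfl fun r _ => ?_
    rw [← e_add, ← e_add]
    congr 1
    ring
  have h4 : L = ‖(L : ℂ)‖ := by
    rw [Complex.norm_real, Real.norm_of_nonneg hL0]
  rw [h4, h1]
  refine (norm_sum_le _ _).trans (sum_le_sum fun z _ => ?_)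
  rw [norm_mul, e_norm, one_mul, norm_mul, Complex.norm_real, Complex.norm_real,
    Real.norm_of_nonneg (by positivity), Real.norm_of_nonneg (by positivity)]

/-- differences cover the box -/
theorem diff_cover (H : ℕ) (F : ℤ → ℝ) (hF : ∀ a, 0 ≤ F a) :
    (H : ℝ) * ∑ a ∈ Icc (-(H : ℤ)) (H : ℤ), F a ≤
      ∑ p ∈ range (2 * H) ×ˢ range (2 * H), F (((p.1 : ℕ) : ℤ) - (p.2 : ℕ)) := by
  classical
  set φ : ℤ × ℕ → ℕ × ℕ := fun x => (x.2 + x.1.toNat, x.2 + (-x.1).toNat) with hφ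
  have hinj : Set.InjOn φ ((Icc (-(H : ℤ)) (H : ℤ) ×ˢ range H : Finset (ℤ × ℕ)) : Set (ℤ × ℕ)) := by
    intro x _ y _ hxy
    simp only [hφ, Prod.mk.injEq] at hxy
    ext <;> omega
  have hsub : (Icc (-(H : ℤ)) (H : ℤ) ×ˢ range H).image φ ⊆ range (2 * H) ×ˢ range (2 * H) := by
    intro y hy
    obtain ⟨x, hx, rfl⟩ := Finset.mem_image.mp hy
    rw [mem_product, mem_Icc, mem_range] at hx
    rw [mem_product, mem_range, mem_range]
    simp only [hφ]
    omega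
  calc (H : ℝ) * ∑ a ∈ Icc (-(H : ℤ)) (H : ℤ), F a
      = ∑ x ∈ Icc (-(H : ℤ)) (H : ℤ) ×ˢ range H, F x.1 := by
        rw [Finset.sum_product, Finset.mul_sum]
        refine sum_congr rfl fun a _ => ?_
        simp only [Finset.sum_const, card_range, nsmul_eq_mul]
    _ = ∑ x ∈ Icc (-(H : ℤ)) (H : ℤ) ×ˢ range H,
          F ((((φ x).1 : ℕ) : ℤ) - ((φ x).2 : ℕ)) := by
        refine sum_congr rfl fun x _ => ?_
        congr 1
        simp only [hφ]
        omega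
    _ = ∑ y ∈ (Icc (-(H : ℤ)) (H : ℤ) ×ˢ range H).image φ,
          F (((y.1 : ℕ) : ℤ) - (y.2 : ℕ)) := by
        rw [Finset.sum_image hinj]
    _ ≤ _ := Finset.sum_le_sum_of_subset_of_nonneg hsub fun _ _ _ => hF _

/-- the kernel is large near the integers -/
theorem D_large (M : ℕ) (hM : 1 ≤ M) (y : ℝ) (hy : |y - round y| ≤ 1 / (8 * M)) :
    (M : ℝ) ^ 2 / 4 ≤ ‖D M y‖ ^ 2 := by
  have hM0 : (0 : ℝ) < M := by exact_mod_cast hM
  set θ : ℝ := y - round y with hθ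
  have h1 : D M y = D M θ := by
    unfold D
    refine sum_congr rfl fun b _ => ?_
    have : (b : ℝ) * y = b * θ + (((b : ℤ) * round y : ℤ) : ℝ) := by
      rw [hθ]
      push_cast
      ring
    rw [this, e_add, e_int, mul_one]
  have h2 : (M : ℝ) / 2 ≤ (D M θ).re := by
    unfold D
    rw [Complex.re_sum]
    have h3 : ∀ b ∈ range M, (1 / 2 : ℝ) ≤ (e (b * θ)).re := by
      intro b hb
      rw [mem_range] at hb
      unfold e
      rw [Complex.exp_ofReal_mul_I_re]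
      set z : ℝ := 2 * Real.pi * (b * θ) with hz
      have hb1 : (b : ℝ) ≤ M := by exact_mod_cast hb.le
      have hz1 : |z| ≤ 1 := by
        rw [hz, abs_mul, abs_mul (b : ℝ) θ, abs_of_pos (by positivity : (0 : ℝ) < 2 * Real.pi),
          abs_of_nonneg (Nat.cast_nonneg b)]
        have h4 : (b : ℝ) * |θ| ≤ 1 / 8 := by
          calc (b : ℝ) * |θ| ≤ M * (1 / (8 * M)) :=
                mul_le_mul hb1 hy (abs_nonneg _) hM0.le
            _ = 1 / 8 := by field_simp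
        have h5 := Real.pi_lt_four
        have h6 := Real.pi_pos
        have h7 : 0 ≤ (b : ℝ) * |θ| := by positivity
        nlinarith
      have h4 := Real.one_sub_sq_div_two_le_cos (x := z)
      have h5 : z ^ 2 ≤ 1 := by
        rw [← sq_abs]
        have := abs_nonneg z
        nlinarith
      linarith
    have h4 := Finset.sum_le_sum h3
    rw [Finset.sum_const, card_range, nsmul_eq_mul] at h4
    linarith
  have h3 : (M : ℝ) / 2 ≤ ‖D M y‖ := by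
    rw [h1]
    exact h2.trans (Complex.re_le_norm _)
  have h4 : ((M : ℝ) / 2) ^ 2 ≤ ‖D M y‖ ^ 2 := pow_le_pow_left₀ (by positivity) h3 2
  calc (M : ℝ) ^ 2 / 4 = ((M : ℝ) / 2) ^ 2 := by ring
    _ ≤ _ := h4

/-- the kernel is small away from the integers -/
theorem D_small (N : ℕ) (t : ℝ) : ‖D N t‖ * (4 * |t - round t|) ≤ 2 := by
  have h1 : D N t * (e t - 1) = e (N * t) - 1 := by
    have hp : ∀ b : ℕ, e (b * t) = e t ^ b := by
      intro b
      induction b with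
      | zero =>
        have := e_int 0
        simp only [Int.cast_zero] at this
        simp [this]
      | succ b ih =>
        rw [pow_succ, ← ih, ← e_add]
        congr 1
        push_cast
        ring
    unfold D
    rw [hp N]
    rw [sum_congr rfl fun b _ => hp b]
    exact geom_sum_mul (e t) N
  have h2 : ‖D N t‖ * ‖e t - 1‖ ≤ 2 := by
    rw [← norm_mul, h1]
    refine (norm_sub_le _ _).trans ?_
    rw [e_norm, norm_one]
    norm_num
  have h3 : 4 * |t - round t| ≤ ‖e t - 1‖ := by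
    set θ : ℝ := t - round t with hθ
    have h4 : e t = e θ := by
      have : t = θ + ((round t : ℤ) : ℝ) := by rw [hθ]; ring
      conv_lhs => rw [this]
      rw [e_add, e_int, mul_one]
    rw [h4]
    have h5 : |θ| ≤ 1 / 2 := abs_sub_round t
    have h6 : ‖e θ - 1‖ = ‖2 * Real.sin (Real.pi * θ)‖ := by
      have h7 := Complex.norm_exp_I_mul_ofReal_sub_one (2 * Real.pi * θ)
      have h8 : 2 * Real.pi * θ / 2 = Real.pi * θ := by ring
      rw [h8] at h7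
      rw [← h7]
      unfold e
      rw [mul_comm Complex.I]
    rw [h6, norm_mul, Real.norm_of_nonneg (by norm_num : (0 : ℝ) ≤ 2), Real.norm_eq_abs]
    have h9 : 2 * |θ| ≤ |Real.sin (Real.pi * θ)| := by
      have h10 : ∀ s : ℝ, 0 ≤ s → s ≤ 1 / 2 → 2 * s ≤ Real.sin (Real.pi * s) := by
        intro s hs0 hs1
        have h11 := Real.mul_le_sin (x := Real.pi * s) (by positivity)
          (by nlinarith [Real.pi_pos])
        have h12 : 2 / Real.pi * (Real.pi * s) = 2 * s := by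
          field_simp
        linarith
      rcases le_total 0 θ with h | h
      · rw [abs_of_nonneg h] at h5 ⊢
        exact (h10 θ h h5).trans (le_abs_self _)
      · rw [abs_of_nonpos h] at h5 ⊢
        have h11 := h10 (-θ) (by linarith) h5
        have h12 : Real.sin (Real.pi * -θ) = -Real.sin (Real.pi * θ) := by
          rw [mul_neg, Real.sin_neg]
        rw [h12] at h11
        exact h11.trans (neg_le_abs _)
    linarith
  calc ‖D N t‖ * (4 * |t - round t|) ≤ ‖D N t‖ * ‖e t - 1‖ :=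
        mul_le_mul_of_nonneg_left h3 (norm_nonneg _)
    _ ≤ 2 := h2

theorem D_bound (H : ℕ) (hH : 1 ≤ H) (t : ℝ) :
    ‖D (2 * H) t‖ * (1 + H * |t - round t|) ≤ 4 * H := by
  have h1 := D_norm_le (2 * H) t
  have h2 := D_small (2 * H) t
  have hH1 : (1 : ℝ) ≤ H := by exact_mod_cast hH
  push_cast at h1
  nlinarith

/-- the number of solutions of one inequality with two free coefficients -/
theorem count_pair (H M : ℕ) (hH : 1 ≤ H) (hM : 1 ≤ M) (α β ρ : ℝ)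
    (S : Finset (ℤ × ℤ)) (hS : ∀ a ∈ S, a.1 ∈ Icc (-(H : ℤ)) (H : ℤ) ∧
      a.2 ∈ Icc (-(H : ℤ)) (H : ℤ) ∧
      |(a.1 * α + a.2 * β + ρ) - round (a.1 * α + a.2 * β + ρ)| ≤ 1 / (8 * M)) :
    (S.card : ℝ) * (H : ℝ) ^ 2 * ((M : ℝ) ^ 2 / 4) ≤
      2 * M * ∑ m ∈ range M, ‖D (2 * H) (m * α)‖ ^ 2 * ‖D (2 * H) (m * β)‖ ^ 2 := by
  classical
  have hH0 : (0 : ℝ) < H := by exact_mod_cast hH
  have hM0 : (0 : ℝ) < M := by exact_mod_cast hM
  set I := Icc (-(H : ℤ)) (H : ℤ) with hI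
  set R := range (2 * H) ×ˢ range (2 * H) with hR
  have h1 : (S.card : ℝ) * ((M : ℝ) ^ 2 / 4) ≤
      ∑ a ∈ I, ∑ b ∈ I, ‖D M (a * α + b * β + ρ)‖ ^ 2 := by
    rw [← Finset.sum_product', ← nsmul_eq_mul, ← Finset.sum_const]
    have hsub : S ⊆ I ×ˢ I := by
      intro a ha
      rw [mem_product]
      exact ⟨(hS a ha).1, (hS a ha).2.1⟩
    refine (Finset.sum_le_sum fun a ha => ?_).trans
      (Finset.sum_le_sum_of_subset_of_nonneg hsub fun _ _ _ => by positivity)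
    exact D_large M hM _ (hS a ha).2.2
  have h2 : (H : ℝ) ^ 2 * ∑ a ∈ I, ∑ b ∈ I, ‖D M (a * α + b * β + ρ)‖ ^ 2 ≤
      ∑ p ∈ R, ∑ r ∈ R, ‖D M ((((p.1 : ℕ) : ℝ) - (p.2 : ℕ)) * α +
        (((r.1 : ℕ) : ℝ) - (r.2 : ℕ)) * β + ρ)‖ ^ 2 := by
    have h3 := diff_cover H (fun a => (H : ℝ) * ∑ b ∈ I, ‖D M (a * α + b * β + ρ)‖ ^ 2)
      (fun a => by positivity)
    have h4 : ∀ p ∈ R, (H : ℝ) * ∑ b ∈ I, ‖D M (((((p.1 : ℕ) : ℤ) - (p.2 : ℕ) : ℤ) : ℝ) * α +
        b * β + ρ)‖ ^ 2 ≤ ∑ r ∈ R, ‖D M ((((p.1 : ℕ) : ℝ) - (p.2 : ℕ)) * α +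
        (((r.1 : ℕ) : ℝ) - (r.2 : ℕ)) * β + ρ)‖ ^ 2 := by
      intro p _
      have h5 := diff_cover H (fun b => ‖D M (((((p.1 : ℕ) : ℤ) - (p.2 : ℕ) : ℤ) : ℝ) * α +
        b * β + ρ)‖ ^ 2) (fun b => by positivity)
      refine h5.trans (le_of_eq ?_)
      refine sum_congr rfl fun r _ => ?_
      push_cast
      rfl
    calc (H : ℝ) ^ 2 * ∑ a ∈ I, ∑ b ∈ I, ‖D M (a * α + b * β + ρ)‖ ^ 2
        = H * ∑ a ∈ I, (H : ℝ) * ∑ b ∈ I, ‖D M (a * α + b * β + ρ)‖ ^ 2 := by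
          rw [← Finset.mul_sum]
          ring
      _ ≤ _ := h3.trans (Finset.sum_le_sum h4)
  have h3 := four_sum (2 * H) M α β ρ
  set G : ℕ → ℝ := fun m => ‖D (2 * H) (m * α)‖ ^ 2 * ‖D (2 * H) (m * β)‖ ^ 2 with hG
  have hG0 : ∀ m, 0 ≤ G m := fun m => by simp only [hG]; positivity
  have h4 : ∑ z ∈ range M ×ˢ range M,
      ‖D (2 * H) ((((z.1 : ℕ) : ℝ) - (z.2 : ℕ)) * α)‖ ^ 2 *
        ‖D (2 * H) ((((z.1 : ℕ) : ℝ) - (z.2 : ℕ)) * β)‖ ^ 2 ≤ 2 * M * ∑ m ∈ range M, G m := by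
    have h5 : ∀ z ∈ range M ×ˢ range M,
        ‖D (2 * H) ((((z.1 : ℕ) : ℝ) - (z.2 : ℕ)) * α)‖ ^ 2 *
        ‖D (2 * H) ((((z.1 : ℕ) : ℝ) - (z.2 : ℕ)) * β)‖ ^ 2 ≤
        (if z.2 ≤ z.1 then G (z.1 - z.2) else 0) + (if z.1 ≤ z.2 then G (z.2 - z.1) else 0) := by
      intro z _
      rcases le_total z.2 z.1 with h | h
      · rw [if_pos h]
        have h6 : 0 ≤ (if z.1 ≤ z.2 then G (z.2 - z.1) else 0) := by
          split_ifs
          · exact hG0 _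
          · exact le_rfl
        have h7 : ((z.1 : ℕ) : ℝ) - (z.2 : ℕ) = ((z.1 - z.2 : ℕ) : ℝ) := by
          rw [Nat.cast_sub h]
        rw [h7]
        have h8 : G (z.1 - z.2) = ‖D (2 * H) (((z.1 - z.2 : ℕ) : ℝ) * α)‖ ^ 2 *
          ‖D (2 * H) (((z.1 - z.2 : ℕ) : ℝ) * β)‖ ^ 2 := rfl
        linarith
      · rw [if_pos h]
        have h6 : 0 ≤ (if z.2 ≤ z.1 then G (z.1 - z.2) else 0) := by
          split_ifs
          · exact hG0 _
          · exact le_rfl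
        have h7 : ∀ γ : ℝ, (((z.1 : ℕ) : ℝ) - (z.2 : ℕ)) * γ = -(((z.2 - z.1 : ℕ) : ℝ) * γ) := by
          intro γ
          rw [Nat.cast_sub h]
          ring
        rw [h7, h7, D_neg, D_neg]
        have h8 : G (z.2 - z.1) = ‖D (2 * H) (((z.2 - z.1 : ℕ) : ℝ) * α)‖ ^ 2 *
          ‖D (2 * H) (((z.2 - z.1 : ℕ) : ℝ) * β)‖ ^ 2 := rfl
        linarith
    refine (Finset.sum_le_sum h5).trans ?_
    rw [Finset.sum_add_distrib]
    have h6 : ∀ u ∈ range M, ∑ v ∈ range M, (if v ≤ u then G (u - v) else 0) ≤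
        ∑ m ∈ range M, G m := by
      intro u hu
      rw [← Finset.sum_filter]
      have hinj : Set.InjOn (fun v => u - v)
          (((range M).filter (fun v => v ≤ u) : Finset ℕ) : Set ℕ) := by
        intro a ha b hb hab
        rw [Finset.mem_coe, Finset.mem_filter] at ha hb
        simp only at hab
        omega
      rw [← Finset.sum_image (f := G) hinj]
      refine Finset.sum_le_sum_of_subset_of_nonneg ?_ fun _ _ _ => hG0 _
      intro y hy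
      obtain ⟨v, hv, rfl⟩ := Finset.mem_image.mp hy
      rw [Finset.mem_filter] at hv
      rw [mem_range] at hu ⊢
      omega
    have h7 : ∑ z ∈ range M ×ˢ range M, (if z.2 ≤ z.1 then G (z.1 - z.2) else 0) ≤
        M * ∑ m ∈ range M, G m := by
      rw [Finset.sum_product]
      refine (Finset.sum_le_sum h6).trans ?_
      rw [Finset.sum_const, card_range, nsmul_eq_mul]
    have h8 : ∑ z ∈ range M ×ˢ range M, (if z.1 ≤ z.2 then G (z.2 - z.1) else 0) ≤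
        M * ∑ m ∈ range M, G m := by
      rw [Finset.sum_product_right]
      refine (Finset.sum_le_sum h6).trans ?_
      rw [Finset.sum_const, card_range, nsmul_eq_mul]
    linarith
  calc (S.card : ℝ) * (H : ℝ) ^ 2 * ((M : ℝ) ^ 2 / 4)
      = (H : ℝ) ^ 2 * ((S.card : ℝ) * ((M : ℝ) ^ 2 / 4)) := by ring
    _ ≤ (H : ℝ) ^ 2 * ∑ a ∈ I, ∑ b ∈ I, ‖D M (a * α + b * β + ρ)‖ ^ 2 :=
        mul_le_mul_of_nonneg_left h1 (by positivity)
    _ ≤ _ := h2.trans (h3.trans h4)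

end Pool.Agent.TH42.LA
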