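import Pool.Agent.TH42.LA.A

/-!
# The spacing sum and the divisor sum
-/

set_option autoImplicit false

namespace Pool.Agent.TH42.LA

open Finset

/-- harmonic sums -/
theorem harm_le (K : ℕ) : ∑ i ∈ range K, (1 : ℝ) / (i + 1) ≤ 1 + Real.log K := by
  have h := harmonic_le_one_add_log K
  have e1 : ((harmonic K : ℚ) : ℝ) = ∑ i ∈ range K, (1 : ℝ) / (i + 1) := by
    unfold harmonic
    push_cast
    refine sum_congr rfl fun i _ => ?_
    rw [one_div]
  rw [← e1]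
  exact h

/-- sums of `1/|k|` over nonzero integers -/
theorem harm_int (K : ℕ) :
    ∑ k ∈ (Icc (-(K : ℤ)) (K : ℤ)).erase 0, (1 : ℝ) / |(k : ℝ)| ≤ 2 * (1 + Real.log K) := by
  classical
  have h1 : ∑ k ∈ (Icc (-(K : ℤ)) (K : ℤ)).erase 0, (1 : ℝ) / |(k : ℝ)| ≤
      ∑ k ∈ (Icc (-(K : ℤ)) (K : ℤ)).erase 0, ∑ i ∈ range K,
        (if k.natAbs = i + 1 then (1 : ℝ) / (i + 1) else 0) := by
    refine Finset.sum_le_sum fun k hk => ?_
    rw [mem_erase, mem_Icc] at hk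
    have hi : k.natAbs - 1 ∈ range K := by
      rw [mem_range]
      omega
    refine le_trans ?_ (Finset.single_le_sum (f := fun i : ℕ =>
      (if k.natAbs = i + 1 then (1 : ℝ) / (i + 1) else 0)) (fun i _ => ?_) hi)
    · have h2 : k.natAbs = k.natAbs - 1 + 1 := by omega
      rw [if_pos h2]
      have h3 : |(k : ℝ)| = ((k.natAbs - 1 : ℕ) : ℝ) + 1 := by
        have h4 : |(k : ℝ)| = (k.natAbs : ℝ) := by
          rw [← Int.cast_abs, ← Int.natCast_natAbs]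
          simp
        rw [h4]
        exact_mod_cast h2
      rw [h3]
    · split_ifs
      · positivity
      · exact le_rfl
  refine h1.trans ?_
  rw [Finset.sum_comm]
  have h2 : ∀ i ∈ range K, ∑ k ∈ (Icc (-(K : ℤ)) (K : ℤ)).erase 0,
      (if k.natAbs = i + 1 then (1 : ℝ) / (i + 1) else 0) ≤ 2 * ((1 : ℝ) / (i + 1)) := by
    intro i _
    rw [← Finset.sum_filter, Finset.sum_const, nsmul_eq_mul]
    refine mul_le_mul_of_nonneg_right ?_ (by positivity)
    have h3 : ((Icc (-(K : ℤ)) (K : ℤ)).erase 0).filter (fun k => k.natAbs = i + 1) ⊆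
        {((i : ℤ) + 1), -((i : ℤ) + 1)} := by
      intro k hk
      rw [mem_filter] at hk
      rw [mem_insert, mem_singleton]
      omega
    have h4 := (Finset.card_le_card h3).trans Finset.card_le_two
    exact_mod_cast h4
  refine (Finset.sum_le_sum h2).trans ?_
  rw [← Finset.mul_sum]
  have := harm_le K
  linarith

/-- the spacing sum -/
theorem spacing_sum (X : Finset ℝ) (N0 : ℕ) (hN0 : 2 ≤ N0)
    (hX : ∀ x ∈ X, ∀ y ∈ X, x ≠ y → 1 / (N0 : ℝ) ≤ |x - y|) (H m : ℕ) (hH : 1 ≤ H) (hm : 1 ≤ m)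
    (k : ℤ) :
    ∑ x ∈ X.filter (fun x => round ((m : ℝ) * x) = k), 1 / (1 + H * |(m : ℝ) * x - k|) ≤
      2 + 2 * N0 / (H * m) * (1 + Real.log N0) := by
  classical
  have hN : (0 : ℝ) < N0 := by
    have : 0 < N0 := by omega
    exact_mod_cast this
  have hN2 : (2 : ℝ) ≤ N0 := by exact_mod_cast hN0
  have hH0 : (0 : ℝ) < H := by exact_mod_cast hH
  have hm0 : (0 : ℝ) < m := by exact_mod_cast hm
  have hm1 : (1 : ℝ) ≤ m := by exact_mod_cast hm
  set Y := X.filter (fun x => round ((m : ℝ) * x) = k) with hY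
  set j : ℝ → ℤ := fun x => ⌊(N0 : ℝ) * (x - k / m)⌋ with hj
  set i : ℝ → ℕ := fun x => if 0 ≤ j x then (j x).toNat else (-j x - 1).toNat with hi
  have hjinj : Set.InjOn j (Y : Set ℝ) := by
    intro x hx y hy hxy
    rw [Finset.mem_coe, hY, mem_filter] at hx hy
    by_contra hne
    have h1 := hX x hx.1 y hy.1 hne
    have hxy' : ⌊(N0 : ℝ) * (x - k / m)⌋ = ⌊(N0 : ℝ) * (y - k / m)⌋ := hxy
    have h2 := Int.abs_sub_lt_one_of_floor_eq_floor hxy'
    have h3 : (N0 : ℝ) * (x - k / m) - (N0 : ℝ) * (y - k / m) = N0 * (x - y) := by ring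
    rw [h3, abs_mul, abs_of_pos hN] at h2
    rw [div_le_iff₀ hN] at h1
    linarith
  have hi1 : ∀ x, (i x : ℝ) * m / N0 ≤ |(m : ℝ) * x - k| := by
    intro x
    have h1 : (m : ℝ) * x - k = m * (x - k / m) := by field_simp
    rw [h1, abs_mul, abs_of_pos hm0]
    have h2 : (i x : ℝ) ≤ N0 * |x - k / m| := by
      simp only [hi]
      split_ifs with h
      · have h3 : (((j x).toNat : ℕ) : ℝ) = ((j x : ℤ) : ℝ) := by
          have : (((j x).toNat : ℕ) : ℤ) = j x := Int.toNat_of_nonneg h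
          exact_mod_cast this
        rw [h3]
        calc ((j x : ℤ) : ℝ) ≤ N0 * (x - k / m) := Int.floor_le _
          _ ≤ _ := mul_le_mul_of_nonneg_left (le_abs_self _) hN.le
      · have h3 : (((-j x - 1).toNat : ℕ) : ℝ) = -((j x : ℤ) : ℝ) - 1 := by
          have : (((-j x - 1).toNat : ℕ) : ℤ) = -j x - 1 := Int.toNat_of_nonneg (by omega)
          exact_mod_cast this
        rw [h3]
        have h4 : (N0 : ℝ) * (x - k / m) < (j x : ℤ) + 1 := Int.lt_floor_add_one _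
        have h5 : (N0 : ℝ) * (-(x - k / m)) ≤ N0 * |x - k / m| :=
          mul_le_mul_of_nonneg_left (neg_le_abs _) hN.le
        linarith
    calc (i x : ℝ) * m / N0 ≤ (N0 * |x - k / m|) * m / N0 := by gcongr
      _ = m * |x - k / m| := by field_simp
  have hi2 : ∀ x ∈ Y, i x ∈ range N0 := by
    intro x hx
    rw [hY, mem_filter] at hx
    rw [mem_range]
    have h1 := hi1 x
    have h2 : |(m : ℝ) * x - k| ≤ 1 / 2 := by
      rw [← hx.2]
      exact abs_sub_round _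
    have h3 : (i x : ℝ) * m / N0 ≤ 1 / 2 := h1.trans h2
    rw [div_le_iff₀ hN] at h3
    have h4 : (i x : ℝ) ≤ (i x : ℝ) * m := by
      have : (0 : ℝ) ≤ i x := Nat.cast_nonneg _
      nlinarith
    have h5 : (i x : ℝ) < N0 := by linarith
    exact_mod_cast h5
  have h1 : ∀ x ∈ Y, 1 / (1 + H * |(m : ℝ) * x - k|) ≤ 1 / (1 + H * ((i x : ℝ) * m / N0)) := by
    intro x _
    have := hi1 x
    apply one_div_le_one_div_of_le (by positivity)
    have := mul_le_mul_of_nonneg_left this hH0.le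
    linarith
  refine (Finset.sum_le_sum h1).trans ?_
  rw [← Finset.sum_fiberwise_of_maps_to hi2]
  have h2 : ∀ l ∈ range N0, ∑ x ∈ Y.filter (fun x => i x = l),
      1 / (1 + H * ((i x : ℝ) * m / N0)) ≤ 2 * (1 / (1 + H * ((l : ℝ) * m / N0))) := by
    intro l _
    have h3 : ∀ x ∈ Y.filter (fun x => i x = l), 1 / (1 + H * ((i x : ℝ) * m / N0)) ≤
        1 / (1 + H * ((l : ℝ) * m / N0)) := by
      intro x hx
      rw [mem_filter] at hx
      rw [hx.2]
    refine (Finset.sum_le_card_nsmul _ _ _ h3).trans ?_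
    rw [nsmul_eq_mul]
    refine mul_le_mul_of_nonneg_right ?_ (by positivity)
    have h4 : (Y.filter (fun x => i x = l)).card ≤ ({(l : ℤ), -(l : ℤ) - 1} : Finset ℤ).card := by
      refine Finset.card_le_card_of_injOn j ?_ (hjinj.mono fun x hx => ?_)
      · intro x hx
        rw [Finset.mem_coe, mem_filter] at hx
        have h5 := hx.2
        simp only [hi] at h5
        rw [Finset.mem_coe, mem_insert, mem_singleton]
        split_ifs at h5 with h6
        · left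
          omega
        · right
          omega
      · rw [Finset.mem_coe, mem_filter] at hx
        exact hx.1
    have h5 := h4.trans Finset.card_le_two
    exact_mod_cast h5
  refine (Finset.sum_le_sum h2).trans ?_
  rw [← Finset.mul_sum]
  obtain ⟨n, rfl⟩ : ∃ n, N0 = n + 1 := ⟨N0 - 1, by omega⟩
  rw [Finset.sum_range_succ']
  have h3 : ∀ l ∈ range n, 1 / (1 + (H : ℝ) * (((l + 1 : ℕ) : ℝ) * m / ((n + 1 : ℕ) : ℝ))) ≤
      ((n + 1 : ℕ) : ℝ) / (H * m) * (1 / ((l : ℝ) + 1)) := by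
    intro l _
    have h4 : ((n + 1 : ℕ) : ℝ) / (H * m) * (1 / ((l : ℝ) + 1)) =
        1 / ((H : ℝ) * (((l + 1 : ℕ) : ℝ) * m / ((n + 1 : ℕ) : ℝ))) := by
      push_cast
      have : (n : ℝ) + 1 ≠ 0 := by positivity
      field_simp
    rw [h4]
    apply one_div_le_one_div_of_le
    · have : (0 : ℝ) < ((l + 1 : ℕ) : ℝ) := by positivity
      positivity
    · linarith
  have h4 := Finset.sum_le_sum h3
  rw [← Finset.mul_sum] at h4
  have h5 := harm_le n
  have h6 : Real.log (n : ℝ) ≤ Real.log ((n + 1 : ℕ) : ℝ) := by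
    rcases Nat.eq_zero_or_pos n with h | h
    · omega
    · apply Real.log_le_log (by exact_mod_cast h)
      push_cast
      linarith
  have h7 : ((n + 1 : ℕ) : ℝ) / (H * m) * ∑ l ∈ range n, (1 / ((l : ℝ) + 1)) ≤
      ((n + 1 : ℕ) : ℝ) / (H * m) * (1 + Real.log ((n + 1 : ℕ) : ℝ)) :=
    mul_le_mul_of_nonneg_left (by linarith) (by positivity)
  have h8 : 1 / (1 + (H : ℝ) * (((0 : ℕ) : ℝ) * m / ((n + 1 : ℕ) : ℝ))) = 1 := by simp
  rw [h8]
  have h9 : 2 * ((n + 1 : ℕ) : ℝ) / (H * m) * (1 + Real.log ((n + 1 : ℕ) : ℝ)) =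
      2 * (((n + 1 : ℕ) : ℝ) / (H * m) * (1 + Real.log ((n + 1 : ℕ) : ℝ))) := by ring
  rw [h9]
  linarith

/-- the divisor sum -/
theorem V_bound (M T H Dv : ℕ) (hT : 1 ≤ T) (hH : 1 ≤ H) (hM : 1 ≤ M)
    (hD : ∀ n : ℕ, 1 ≤ n → n ≤ (T * M) ^ 2 + M → n.divisors.card ≤ Dv) :
    ∑ m ∈ Ico 1 M, (1 : ℝ) / m * ∑ k ∈ Icc (-((T * m : ℕ) : ℤ)) ((T * m : ℕ) : ℤ),
        1 / (1 + H * |((k : ℝ) ^ 2 / m) - round ((k : ℝ) ^ 2 / m)|) ≤
      6 * T * Dv * (1 + Real.log ((T * M : ℕ) : ℝ)) * (1 + (M : ℝ) / H) := by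
  classical
  have hH0 : (0 : ℝ) < H := by exact_mod_cast hH
  have hM0 : (0 : ℝ) < M := by exact_mod_cast hM
  have hT0 : (0 : ℝ) < T := by exact_mod_cast hT
  have hT1 : (1 : ℝ) ≤ T := by exact_mod_cast hT
  have hM1 : (1 : ℝ) ≤ M := by exact_mod_cast hM
  have hDv : 1 ≤ Dv := by
    have := hD 1 le_rfl (by nlinarith [Nat.zero_le ((T * M) ^ 2)])
    simpa using this
  have hDv1 : (1 : ℝ) ≤ Dv := by exact_mod_cast hDv
  set K : ℕ := T * M with hK
  have hMK : M ≤ K := by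
    rw [hK]
    exact Nat.le_mul_of_pos_left M (by omega)
  set Λ : ℝ := 1 + Real.log (K : ℝ) with hΛ
  have hlogM : 1 + Real.log (M : ℝ) ≤ Λ := by
    have : Real.log (M : ℝ) ≤ Real.log (K : ℝ) := Real.log_le_log hM0 (by exact_mod_cast hMK)
    linarith
  have hΛ1 : 1 ≤ Λ := by
    have : 0 ≤ Real.log (M : ℝ) := Real.log_nonneg hM1
    linarith
  have cnt : ∀ z : ℤ, z ≠ 0 → z.natAbs ≤ K ^ 2 + M →
      (((Ico 1 M).filter (fun m : ℕ => (m : ℤ) ∣ z)).card : ℝ) ≤ Dv := by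
    intro z hz hzb
    have h1 : (Ico 1 M).filter (fun m : ℕ => (m : ℤ) ∣ z) ⊆ z.natAbs.divisors := by
      intro m hm
      rw [mem_filter] at hm
      rw [Nat.mem_divisors]
      exact ⟨Int.natCast_dvd.mp hm.2, by omega⟩
    have h2 := (Finset.card_le_card h1).trans (hD z.natAbs (by omega) hzb)
    exact_mod_cast h2
  set R : Finset ℤ := (Icc (-(M : ℤ)) (M : ℤ)).erase 0 with hR
  set KZ : Finset ℤ := (Icc (-(K : ℤ)) (K : ℤ)).erase 0 with hKZ
  set f : ℕ → ℤ → ℝ := fun m k => (if (m : ℤ) ∣ k ^ 2 then (T : ℝ) / |(k : ℝ)| else 0) +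
    ∑ r ∈ R, (if r ≠ k ^ 2 ∧ (m : ℤ) ∣ k ^ 2 - r then 1 / (H * |(r : ℝ)|) else 0) +
      1 / (H * |(k : ℝ)|) with hf
  have hf1 : ∀ m k, 0 ≤ (if (m : ℤ) ∣ k ^ 2 then (T : ℝ) / |(k : ℝ)| else 0) := by
    intro m k
    split_ifs
    · positivity
    · exact le_rfl
  have hf2 : ∀ (m : ℕ) (k r : ℤ),
      0 ≤ (if r ≠ k ^ 2 ∧ (m : ℤ) ∣ k ^ 2 - r then 1 / (H * |(r : ℝ)|) else (0 : ℝ)) := by
    intro m k r
    split_ifs
    · positivity
    · exact le_rfl
  have hf2' : ∀ (m : ℕ) (k : ℤ), 0 ≤ ∑ r ∈ R,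
      (if r ≠ k ^ 2 ∧ (m : ℤ) ∣ k ^ 2 - r then 1 / (H * |(r : ℝ)|) else (0 : ℝ)) :=
    fun m k => Finset.sum_nonneg fun r _ => hf2 m k r
  have hf3 : ∀ k : ℤ, (0 : ℝ) ≤ 1 / (H * |(k : ℝ)|) := fun k => by positivity
  have hf0 : ∀ m k, 0 ≤ f m k := by
    intro m k
    simp only [hf]
    have := hf1 m k
    have := hf2' m k
    have := hf3 k
    linarith
  -- the pointwise bound
  have hpt : ∀ m ∈ Ico 1 M, ∀ k : ℤ, k ≠ 0 → |k| ≤ ((T * m : ℕ) : ℤ) →
      (1 : ℝ) / m * (1 / (1 + H * |((k : ℝ) ^ 2 / m) - round ((k : ℝ) ^ 2 / m)|)) ≤ f m k := by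
    intro m hm k hk hkT
    rw [mem_Ico] at hm
    have hm0 : (0 : ℝ) < m := by exact_mod_cast hm.1
    have hkR : (k : ℝ) ≠ 0 := by exact_mod_cast hk
    have hkabs : (0 : ℝ) < |(k : ℝ)| := abs_pos.mpr hkR
    have hkT' : |(k : ℝ)| ≤ T * m := by exact_mod_cast hkT
    set n : ℤ := round ((k : ℝ) ^ 2 / m) with hn
    set r : ℤ := k ^ 2 - m * n with hr
    have hnr : |((k : ℝ) ^ 2 / m) - n| = |(r : ℝ)| / m := by
      have : ((k : ℝ) ^ 2 / m) - n = (r : ℝ) / m := by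
        rw [hr]
        push_cast
        field_simp
      rw [this, abs_div, abs_of_pos hm0]
    have hrle : |(r : ℝ)| / m ≤ 1 / 2 := by
      rw [← hnr, hn]
      exact abs_sub_round _
    rw [hnr]
    by_cases hr0 : r = 0
    · have hdvd : (m : ℤ) ∣ k ^ 2 := ⟨n, by rw [hr] at hr0; linarith⟩
      have h1 : f m k = (T : ℝ) / |(k : ℝ)| + ∑ r ∈ R,
          (if r ≠ k ^ 2 ∧ (m : ℤ) ∣ k ^ 2 - r then 1 / (H * |(r : ℝ)|) else 0) +
          1 / (H * |(k : ℝ)|) := by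
        simp only [hf]
        rw [if_pos hdvd]
      rw [h1, hr0]
      have h2 := hf2' m k
      have h3 := hf3 k
      have h4 : (1 : ℝ) / m * (1 / (1 + H * (|((0 : ℤ) : ℝ)| / m))) = 1 / m := by simp
      rw [h4]
      have h5 : (1 : ℝ) / m ≤ (T : ℝ) / |(k : ℝ)| := by
        rw [div_le_div_iff₀ hm0 hkabs]
        linarith
      linarith
    · have hrR : (r : ℝ) ≠ 0 := by exact_mod_cast hr0
      have hrabs : (0 : ℝ) < |(r : ℝ)| := abs_pos.mpr hrR
      have h1 : (1 : ℝ) / m * (1 / (1 + H * (|(r : ℝ)| / m))) ≤ 1 / (H * |(r : ℝ)|) := by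
        rw [one_div_mul_one_div]
        apply one_div_le_one_div_of_le (by positivity)
        have : (m : ℝ) * (1 + H * (|(r : ℝ)| / m)) = m + H * |(r : ℝ)| := by
          field_simp
        rw [this]
        linarith
      by_cases hrk : r = k ^ 2
      · have h2 : (1 : ℝ) / (H * |(r : ℝ)|) ≤ 1 / (H * |(k : ℝ)|) := by
          apply one_div_le_one_div_of_le (by positivity)
          apply mul_le_mul_of_nonneg_left _ hH0.le
          have h3 : |k| ≤ |r| := by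
            rw [hrk, abs_pow]
            have : 1 ≤ |k| := Int.one_le_abs hk
            nlinarith
          exact_mod_cast h3
        have h4 := hf1 m k
        have h5 := hf2' m k
        simp only [hf]
        linarith
      · have hrR' : r ∈ R := by
          rw [hR, mem_erase, mem_Icc]
          refine ⟨hr0, ?_⟩
          have h2 : |(r : ℝ)| ≤ M := by
            rw [div_le_iff₀ hm0] at hrle
            have : (m : ℝ) ≤ M := by exact_mod_cast hm.2.le
            linarith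
          have h3 : |r| ≤ (M : ℤ) := by exact_mod_cast h2
          exact abs_le.mp h3
        have h2 : 1 / (H * |(r : ℝ)|) ≤ ∑ r ∈ R,
            (if r ≠ k ^ 2 ∧ (m : ℤ) ∣ k ^ 2 - r then 1 / (H * |(r : ℝ)|) else 0) := by
          refine le_trans (le_of_eq ?_) (Finset.single_le_sum (fun r _ => hf2 m k r) hrR')
          have h3 : r ≠ k ^ 2 ∧ (m : ℤ) ∣ k ^ 2 - r := ⟨hrk, n, by rw [hr]; ring⟩
          rw [if_pos h3]
        have h4 := hf1 m k
        have h5 := hf3 k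
        simp only [hf]
        linarith
  have hrow : ∀ m ∈ Ico 1 M, (1 : ℝ) / m *
      ∑ k ∈ Icc (-((T * m : ℕ) : ℤ)) ((T * m : ℕ) : ℤ),
        1 / (1 + H * |((k : ℝ) ^ 2 / m) - round ((k : ℝ) ^ 2 / m)|) ≤
      1 / m + ∑ k ∈ KZ, f m k := by
    intro m hm
    have hm' := mem_Ico.mp hm
    have hm0 : (0 : ℝ) < m := by exact_mod_cast hm'.1
    have h0mem : (0 : ℤ) ∈ Icc (-((T * m : ℕ) : ℤ)) ((T * m : ℕ) : ℤ) := by
      rw [mem_Icc]
      exact ⟨neg_nonpos.mpr (Int.natCast_nonneg _), Int.natCast_nonneg _⟩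
    rw [Finset.mul_sum, ← Finset.add_sum_erase _ _ h0mem]
    have h1 : (1 : ℝ) / m * (1 / (1 + H * |(((0 : ℤ) : ℝ) ^ 2 / m) -
        round (((0 : ℤ) : ℝ) ^ 2 / m)|)) = 1 / m := by
      simp
    rw [h1]
    refine add_le_add le_rfl ?_
    refine (Finset.sum_le_sum fun k hk => ?_).trans
      (Finset.sum_le_sum_of_subset_of_nonneg ?_ fun k _ _ => hf0 m k)
    · rw [mem_erase, mem_Icc] at hk
      exact hpt m hm k hk.1 (abs_le.mpr hk.2)
    · intro k hk
      rw [mem_erase, mem_Icc] at hk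
      rw [hKZ, mem_erase, mem_Icc]
      have h2 : T * m ≤ K := by
        rw [hK]
        exact Nat.mul_le_mul_left T hm'.2.le
      have h3 : ((T * m : ℕ) : ℤ) ≤ (K : ℤ) := by exact_mod_cast h2
      exact ⟨hk.1, by linarith [hk.2.1], by linarith [hk.2.2]⟩
  refine (Finset.sum_le_sum hrow).trans ?_
  rw [Finset.sum_add_distrib, Finset.sum_comm]
  have hA : ∑ m ∈ Ico 1 M, (1 : ℝ) / m ≤ Λ := by
    have h1 : ∑ m ∈ Ico 1 M, (1 : ℝ) / m ≤ ∑ i ∈ range M, (1 : ℝ) / (i + 1) := by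
      rw [Finset.sum_Ico_eq_sum_range]
      refine (le_of_eq ?_).trans (Finset.sum_le_sum_of_subset_of_nonneg
        (Finset.range_mono (Nat.sub_le M 1)) fun i _ _ => by positivity)
      refine sum_congr rfl fun i _ => ?_
      push_cast
      rw [add_comm (1 : ℝ)]
    exact (h1.trans (harm_le M)).trans hlogM
  have hcol : ∀ k ∈ KZ, ∑ m ∈ Ico 1 M, f m k ≤
      (T * Dv + M / H) * (1 / |(k : ℝ)|) + Dv / H * (2 * Λ) := by
    intro k hk
    rw [hKZ, mem_erase, mem_Icc] at hk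
    have hk2 : k ^ 2 ≤ (K : ℤ) ^ 2 := sq_le_sq' (by linarith [hk.2.1]) hk.2.2
    have hk2' : 0 < k ^ 2 := by
      have := hk.1
      positivity
    simp only [hf]
    rw [Finset.sum_add_distrib, Finset.sum_add_distrib]
    have h1 : ∑ m ∈ Ico 1 M, (if (m : ℤ) ∣ k ^ 2 then (T : ℝ) / |(k : ℝ)| else 0) ≤
        Dv * ((T : ℝ) / |(k : ℝ)|) := by
      rw [← Finset.sum_filter, Finset.sum_const, nsmul_eq_mul]
      refine mul_le_mul_of_nonneg_right (cnt (k ^ 2) hk2'.ne' ?_) (by positivity)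
      have h2 : ((k ^ 2).natAbs : ℤ) ≤ ((K ^ 2 + M : ℕ) : ℤ) := by
        rw [Int.natCast_natAbs, abs_of_pos hk2']
        push_cast
        have : (0 : ℤ) ≤ M := Int.natCast_nonneg M
        linarith
      exact_mod_cast h2
    have h3 : ∑ m ∈ Ico 1 M, ∑ r ∈ R,
        (if r ≠ k ^ 2 ∧ (m : ℤ) ∣ k ^ 2 - r then 1 / (H * |(r : ℝ)|) else 0) ≤
        Dv / H * (2 * Λ) := by
      rw [Finset.sum_comm]
      have h4 : ∀ r ∈ R, ∑ m ∈ Ico 1 M,
          (if r ≠ k ^ 2 ∧ (m : ℤ) ∣ k ^ 2 - r then 1 / (H * |(r : ℝ)|) else 0) ≤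
          Dv / H * (1 / |(r : ℝ)|) := by
        intro r hr
        rw [hR, mem_erase, mem_Icc] at hr
        by_cases hrk : r = k ^ 2
        · have h5 : ∑ m ∈ Ico 1 M,
              (if r ≠ k ^ 2 ∧ (m : ℤ) ∣ k ^ 2 - r then 1 / (H * |(r : ℝ)|) else (0 : ℝ)) = 0 := by
            refine Finset.sum_eq_zero fun m _ => ?_
            rw [if_neg]
            intro h6
            exact h6.1 hrk
          rw [h5]
          positivity
        · have h5 : ∑ m ∈ Ico 1 M,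
              (if r ≠ k ^ 2 ∧ (m : ℤ) ∣ k ^ 2 - r then 1 / (H * |(r : ℝ)|) else (0 : ℝ)) =
              (((Ico 1 M).filter (fun m : ℕ => (m : ℤ) ∣ k ^ 2 - r)).card : ℝ) *
                (1 / (H * |(r : ℝ)|)) := by
            rw [← Finset.sum_filter, Finset.sum_const, nsmul_eq_mul]
            congr 3
            refine Finset.filter_congr fun m _ => ?_
            exact ⟨fun h => h.2, fun h => ⟨hrk, h⟩⟩
          rw [h5]
          have h6 : (((Ico 1 M).filter (fun m : ℕ => (m : ℤ) ∣ k ^ 2 - r)).card : ℝ) ≤ Dv := by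
            refine cnt (k ^ 2 - r) (by intro h; exact hrk (by linarith)) ?_
            have h7 : (((k ^ 2 - r).natAbs : ℕ) : ℤ) ≤ ((K ^ 2 + M : ℕ) : ℤ) := by
              rw [Int.natCast_natAbs, abs_le]
              push_cast
              have : (0 : ℤ) ≤ (K : ℤ) ^ 2 := by positivity
              constructor <;> linarith [hr.2.1, hr.2.2]
            exact_mod_cast h7
          calc (((Ico 1 M).filter (fun m : ℕ => (m : ℤ) ∣ k ^ 2 - r)).card : ℝ) *
                (1 / (H * |(r : ℝ)|)) ≤ Dv * (1 / (H * |(r : ℝ)|)) :=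
                mul_le_mul_of_nonneg_right h6 (by positivity)
            _ = Dv / H * (1 / |(r : ℝ)|) := by
                rw [div_mul_div_comm, mul_one_div, mul_one]
      refine (Finset.sum_le_sum h4).trans ?_
      rw [← Finset.mul_sum]
      refine mul_le_mul_of_nonneg_left ?_ (by positivity)
      exact (harm_int M).trans (by linarith)
    have h4 : ∑ m ∈ Ico 1 M, (1 : ℝ) / (H * |(k : ℝ)|) ≤ M * (1 / (H * |(k : ℝ)|)) := by
      rw [Finset.sum_const, Nat.card_Ico, nsmul_eq_mul]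
      refine mul_le_mul_of_nonneg_right ?_ (by positivity)
      exact_mod_cast Nat.sub_le M 1
    have h5 : (T * Dv + M / H) * (1 / |(k : ℝ)|) =
        Dv * ((T : ℝ) / |(k : ℝ)|) + M * (1 / (H * |(k : ℝ)|)) := by
      have : |(k : ℝ)| ≠ 0 := by
        rw [abs_ne_zero]
        exact_mod_cast hk.1
      field_simp
    rw [h5]
    linarith
  have hB := Finset.sum_le_sum hcol
  rw [Finset.sum_add_distrib, ← Finset.mul_sum, Finset.sum_const, nsmul_eq_mul] at hB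
  have hKcard : (KZ.card : ℝ) ≤ 2 * K := by
    rw [hKZ, Finset.card_erase_of_mem (by rw [mem_Icc]; omega), Int.card_Icc]
    have : (((K : ℤ) + 1 - -(K : ℤ)).toNat - 1) = 2 * K := by omega
    rw [this]
    push_cast
    exact le_rfl
  have hC : (T * Dv + M / H) * ∑ k ∈ KZ, (1 / |(k : ℝ)|) ≤
      (T * Dv + M / H) * (2 * Λ) := by
    refine mul_le_mul_of_nonneg_left (harm_int K) (by positivity)
  have hE : (KZ.card : ℝ) * (Dv / H * (2 * Λ)) ≤ (2 * K) * (Dv / H * (2 * Λ)) :=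
    mul_le_mul_of_nonneg_right hKcard (by positivity)
  have hKR : (K : ℝ) = T * M := by
    rw [hK]
    push_cast
    rfl
  have hfin : Λ + ((T * Dv + M / H) * (2 * Λ) + (2 * K) * (Dv / H * (2 * Λ))) ≤
      6 * T * Dv * Λ * (1 + (M : ℝ) / H) := by
    rw [hKR]
    have h1 : (1 : ℝ) ≤ T * Dv := by nlinarith
    set s : ℝ := (M : ℝ) / H with hs
    have hs0 : 0 ≤ s := by positivity
    have h2 : (2 * (T * M) : ℝ) * (Dv / H * (2 * Λ)) = 4 * (T * Dv) * Λ * s := by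
      rw [hs]
      ring
    rw [h2]
    set u : ℝ := T * Dv with hu
    have h3 : 6 * (T : ℝ) * Dv * Λ * (1 + s) = 6 * u * Λ * (1 + s) := by
      rw [hu]
      ring
    rw [h3]
    have h4 : Λ ≤ u * Λ := by nlinarith
    have h5 : s * Λ ≤ u * (s * Λ) := by
      have : 0 ≤ s * Λ := by positivity
      nlinarith
    nlinarith
  linarith

/-- the product of two kernels at one point -/
theorem G_bound (H T m : ℕ) (hH : 1 ≤ H) (hm : 1 ≤ m) (x : ℝ) (hx : |x| ≤ T) :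
    ‖D (2 * H) (m * x)‖ ^ 2 * ‖D (2 * H) (m * x ^ 2)‖ ^ 2 ≤
      256 * (2 * T + 2) * (H : ℝ) ^ 4 *
        (1 / (1 + H * |(((round ((m : ℝ) * x) : ℤ) : ℝ) ^ 2 / m) -
          round (((round ((m : ℝ) * x) : ℤ) : ℝ) ^ 2 / m)|)) *
        (1 / (1 + H * |(m : ℝ) * x - round ((m : ℝ) * x)|)) := by
  have hH0 : (0 : ℝ) < H := by exact_mod_cast hH
  have hm0 : (0 : ℝ) < m := by exact_mod_cast hm
  have hm1 : (1 : ℝ) ≤ m := by exact_mod_cast hm
  have hT0 : (0 : ℝ) ≤ T := Nat.cast_nonneg T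
  set k : ℤ := round ((m : ℝ) * x) with hk
  set t : ℝ := |(m : ℝ) * x - k| with ht
  set u : ℝ := |(m : ℝ) * x ^ 2 - round ((m : ℝ) * x ^ 2)| with hu
  set s : ℝ := |((k : ℝ) ^ 2 / m) - round ((k : ℝ) ^ 2 / m)| with hs
  have ht0 : 0 ≤ t := abs_nonneg _
  have hu0 : 0 ≤ u := abs_nonneg _
  have hs0 : 0 ≤ s := abs_nonneg _
  have ht1 : t ≤ 1 / 2 := by
    rw [ht, hk]
    exact abs_sub_round _
  have h1 : |((k : ℝ) ^ 2 / m) - m * x ^ 2| ≤ (2 * T + 1) * t := by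
    have h2 : ((k : ℝ) ^ 2 / m) - m * x ^ 2 = -((m * x - k) * ((m * x + k) / m)) := by
      field_simp
      ring
    rw [h2, abs_neg, abs_mul, ← ht, mul_comm]
    refine mul_le_mul_of_nonneg_right ?_ ht0
    rw [abs_div, abs_of_pos hm0, div_le_iff₀ hm0]
    have h3 : (m : ℝ) * x + k = 2 * (m * x) - (m * x - k) := by ring
    rw [h3]
    refine (abs_sub _ _).trans ?_
    rw [← ht, abs_mul, abs_mul, abs_of_pos hm0, abs_of_pos (by norm_num : (0 : ℝ) < 2)]
    nlinarith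
  have h2 : s ≤ u + (2 * T + 1) * t := by
    have h3 : s ≤ |((k : ℝ) ^ 2 / m) - (round ((m : ℝ) * x ^ 2) : ℤ)| := round_le _ _
    have h4 : ((k : ℝ) ^ 2 / m) - (round ((m : ℝ) * x ^ 2) : ℤ) =
        (((k : ℝ) ^ 2 / m) - m * x ^ 2) + (m * x ^ 2 - (round ((m : ℝ) * x ^ 2) : ℤ)) := by ring
    rw [h4] at h3
    have h5 := abs_add_le (((k : ℝ) ^ 2 / m) - m * x ^ 2)
      (m * x ^ 2 - (round ((m : ℝ) * x ^ 2) : ℤ))
    linarith
  have h3 : 1 + H * s ≤ (2 * T + 2) * ((1 + H * u) * (1 + H * t)) := by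
    have h4 : (H : ℝ) * s ≤ H * (u + (2 * T + 1) * t) := mul_le_mul_of_nonneg_left h2 hH0.le
    have h5 : 0 ≤ (H : ℝ) * u := by positivity
    have h6 : 0 ≤ (H : ℝ) * t := by positivity
    nlinarith [mul_nonneg h5 h6, mul_nonneg hT0 h5, mul_nonneg hT0 h6,
      mul_nonneg hT0 (mul_nonneg h5 h6)]
  have hA := D_bound H hH ((m : ℝ) * x)
  have hB := D_bound H hH ((m : ℝ) * x ^ 2)
  rw [← hk, ← ht] at hA
  rw [← hu] at hB
  set A : ℝ := ‖D (2 * H) (m * x)‖ with hAdef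
  set B : ℝ := ‖D (2 * H) (m * x ^ 2)‖ with hBdef
  have hA0 : 0 ≤ A := norm_nonneg _
  have hB0 : 0 ≤ B := norm_nonneg _
  have h1t : 0 < 1 + H * t := by positivity
  have h1u : 0 < 1 + H * u := by positivity
  have h1s : 0 < 1 + H * s := by positivity
  have h4 : A ^ 2 * B ^ 2 * ((1 + H * s) * (1 + H * t)) ≤
      256 * (2 * T + 2) * (H : ℝ) ^ 4 := by
    have hA2 : (A * (1 + H * t)) ^ 2 ≤ (4 * H) ^ 2 := pow_le_pow_left₀ (by positivity) hA 2
    have hB2 : (B * (1 + H * u)) ^ 2 ≤ (4 * H) ^ 2 := pow_le_pow_left₀ (by positivity) hB 2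
    have hB3 : B ^ 2 * (1 + H * u) ≤ (4 * H) ^ 2 := by
      refine le_trans ?_ hB2
      rw [mul_pow]
      refine mul_le_mul_of_nonneg_left ?_ (by positivity)
      have : 0 ≤ (H : ℝ) * u := by positivity
      nlinarith
    calc A ^ 2 * B ^ 2 * ((1 + H * s) * (1 + H * t))
        ≤ A ^ 2 * B ^ 2 * (((2 * T + 2) * ((1 + H * u) * (1 + H * t))) * (1 + H * t)) := by
          refine mul_le_mul_of_nonneg_left ?_ (by positivity)
          exact mul_le_mul_of_nonneg_right h3 h1t.le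
      _ = (2 * T + 2) * ((A * (1 + H * t)) ^ 2 * (B ^ 2 * (1 + H * u))) := by ring
      _ ≤ (2 * T + 2) * ((4 * H) ^ 2 * (4 * H) ^ 2) := by
          refine mul_le_mul_of_nonneg_left ?_ (by positivity)
          exact mul_le_mul hA2 hB3 (by positivity) (by positivity)
      _ = _ := by ring
  rw [mul_assoc (256 * (2 * T + 2) * (H : ℝ) ^ 4), one_div_mul_one_div, mul_one_div,
    le_div_iff₀ (by positivity)]
  exact h4

/-- **The main mean value.** -/
theorem mean_bound (X : Finset ℝ) (H T M N0 Dv : ℕ) (hH : 1 ≤ H) (hM : 1 ≤ M)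
    (hN0 : 2 ≤ N0) (hXT : ∀ x ∈ X, |x| ≤ T)
    (hX : ∀ x ∈ X, ∀ y ∈ X, x ≠ y → 1 / (N0 : ℝ) ≤ |x - y|)
    (hD : ∀ n : ℕ, 1 ≤ n → n ≤ ((T + 1) * M) ^ 2 + M → n.divisors.card ≤ Dv) :
    ∑ x ∈ X, ∑ m ∈ range M, ‖D (2 * H) (m * x)‖ ^ 2 * ‖D (2 * H) (m * x ^ 2)‖ ^ 2 ≤
      16 * (H : ℝ) ^ 4 * X.card + 256 * (2 * T + 2) * (H : ℝ) ^ 4 *
        ((2 * M + 2 * N0 / H * (1 + Real.log N0)) *
        (6 * (T + 1) * Dv * (1 + Real.log (((T + 1) * M : ℕ) : ℝ)) * (1 + (M : ℝ) / H))) := by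
  classical
  have hH0 : (0 : ℝ) < H := by exact_mod_cast hH
  have hM0 : (0 : ℝ) < M := by exact_mod_cast hM
  have hT0 : (0 : ℝ) ≤ T := Nat.cast_nonneg T
  have hlogN : 0 ≤ Real.log (N0 : ℝ) := Real.log_natCast_nonneg N0
  set G : ℝ → ℕ → ℝ := fun x m =>
    ‖D (2 * H) (m * x)‖ ^ 2 * ‖D (2 * H) (m * x ^ 2)‖ ^ 2 with hG
  set C0 : ℝ := 256 * (2 * T + 2) * (H : ℝ) ^ 4 with hC0
  have hC00 : 0 ≤ C0 := by rw [hC0]; positivity
  set g : ℕ → ℤ → ℝ := fun m k =>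
    1 / (1 + H * |((k : ℝ) ^ 2 / m) - round ((k : ℝ) ^ 2 / m)|) with hg
  have hg0 : ∀ m k, 0 ≤ g m k := fun m k => by simp only [hg]; positivity
  rw [Finset.sum_comm]
  have hsplit : ∑ m ∈ range M, ∑ x ∈ X, G x m =
      ∑ x ∈ X, G x 0 + ∑ m ∈ Ico 1 M, ∑ x ∈ X, G x m := by
    rw [Finset.range_eq_Ico, Finset.sum_eq_sum_Ico_succ_bot (by omega)]
  have h0 : ∑ x ∈ X, G x 0 ≤ 16 * (H : ℝ) ^ 4 * X.card := by
    have h1 : ∀ x ∈ X, G x 0 ≤ 16 * (H : ℝ) ^ 4 := by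
      intro x _
      simp only [hG]
      have h2 := D_norm_le (2 * H) (((0 : ℕ) : ℝ) * x)
      have h3 := D_norm_le (2 * H) (((0 : ℕ) : ℝ) * x ^ 2)
      push_cast at h2 h3 ⊢
      calc ‖D (2 * H) (0 * x)‖ ^ 2 * ‖D (2 * H) (0 * x ^ 2)‖ ^ 2 ≤
          (2 * (H : ℝ)) ^ 2 * (2 * (H : ℝ)) ^ 2 :=
            mul_le_mul (pow_le_pow_left₀ (norm_nonneg _) h2 2)
              (pow_le_pow_left₀ (norm_nonneg _) h3 2) (by positivity) (by positivity)
        _ = 16 * (H : ℝ) ^ 4 := by ring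
    refine (Finset.sum_le_card_nsmul _ _ _ h1).trans ?_
    rw [nsmul_eq_mul, mul_comm]
  have hm : ∀ m ∈ Ico 1 M, ∑ x ∈ X, G x m ≤
      C0 * (2 * M + 2 * N0 / H * (1 + Real.log N0)) *
        ((1 : ℝ) / m * ∑ k ∈ Icc (-(((T + 1) * m : ℕ) : ℤ)) (((T + 1) * m : ℕ) : ℤ), g m k) := by
    intro m hm
    rw [mem_Ico] at hm
    have hm0 : (0 : ℝ) < m := by exact_mod_cast hm.1
    have hm1 : (1 : ℝ) ≤ m := by exact_mod_cast hm.1
    have hmM : (m : ℝ) ≤ M := by exact_mod_cast hm.2.le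
    have hmaps : ∀ x ∈ X, round ((m : ℝ) * x) ∈
        Icc (-(((T + 1) * m : ℕ) : ℤ)) (((T + 1) * m : ℕ) : ℤ) := by
      intro x hx
      rw [mem_Icc, ← abs_le]
      have h1 : |((round ((m : ℝ) * x) : ℤ) : ℝ)| ≤ (((T + 1) * m : ℕ) : ℝ) := by
        have h2 : ((round ((m : ℝ) * x) : ℤ) : ℝ) = m * x - (m * x - round ((m : ℝ) * x)) := by
          ring
        rw [h2]
        refine (abs_sub _ _).trans ?_
        have h3 := abs_sub_round ((m : ℝ) * x)
        rw [abs_mul, abs_of_pos hm0]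
        have h4 := mul_le_mul_of_nonneg_left (hXT x hx) hm0.le
        push_cast
        nlinarith
      exact_mod_cast h1
    rw [← Finset.sum_fiberwise_of_maps_to hmaps]
    have h1 : ∀ k ∈ Icc (-(((T + 1) * m : ℕ) : ℤ)) (((T + 1) * m : ℕ) : ℤ),
        ∑ x ∈ X.filter (fun x => round ((m : ℝ) * x) = k), G x m ≤
        C0 * g m k * (2 + 2 * N0 / (H * m) * (1 + Real.log N0)) := by
      intro k _
      have h2 : ∀ x ∈ X.filter (fun x => round ((m : ℝ) * x) = k), G x m ≤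
          C0 * g m k * (1 / (1 + H * |(m : ℝ) * x - k|)) := by
        intro x hx
        rw [mem_filter] at hx
        have h3 := G_bound H T m hH hm.1 x (hXT x hx.1)
        rw [hx.2] at h3
        exact h3
      refine (Finset.sum_le_sum h2).trans ?_
      rw [← Finset.mul_sum]
      exact mul_le_mul_of_nonneg_left (spacing_sum X N0 hN0 hX H m hH hm.1 k)
        (mul_nonneg hC00 (hg0 m k))
    refine (Finset.sum_le_sum h1).trans ?_
    rw [← Finset.sum_mul, ← Finset.mul_sum]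
    have h2 : 2 + 2 * N0 / (H * m) * (1 + Real.log N0) ≤
        (2 * M + 2 * N0 / H * (1 + Real.log N0)) * (1 / m) := by
      have h3 : (2 * M + 2 * N0 / H * (1 + Real.log N0)) * (1 / m) =
          2 * (M / m) + 2 * N0 / (H * m) * (1 + Real.log (N0 : ℝ)) := by
        field_simp
      rw [h3]
      have h4 : (1 : ℝ) ≤ M / m := by
        rw [le_div_iff₀ hm0]
        linarith
      linarith
    have h5 : 0 ≤ ∑ k ∈ Icc (-(((T + 1) * m : ℕ) : ℤ)) (((T + 1) * m : ℕ) : ℤ), g m k :=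
      Finset.sum_nonneg fun k _ => hg0 m k
    calc C0 * (∑ k ∈ Icc (-(((T + 1) * m : ℕ) : ℤ)) (((T + 1) * m : ℕ) : ℤ), g m k) *
          (2 + 2 * N0 / (H * m) * (1 + Real.log N0))
        ≤ C0 * (∑ k ∈ Icc (-(((T + 1) * m : ℕ) : ℤ)) (((T + 1) * m : ℕ) : ℤ), g m k) *
          ((2 * M + 2 * N0 / H * (1 + Real.log N0)) * (1 / m)) :=
          mul_le_mul_of_nonneg_left h2 (mul_nonneg hC00 h5)
      _ = _ := by ring
  have hsum := Finset.sum_le_sum hm
  rw [← Finset.mul_sum] at hsum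
  have hV := V_bound M (T + 1) H Dv (by omega) hH hM hD
  have hcoef : 0 ≤ C0 * (2 * M + 2 * N0 / H * (1 + Real.log N0)) := by positivity
  have hV' := mul_le_mul_of_nonneg_left hV hcoef
  have hcast : (((T + 1 : ℕ) : ℝ)) = (T : ℝ) + 1 := by push_cast; rfl
  rw [hcast] at hV'
  calc ∑ m ∈ range M, ∑ x ∈ X, G x m
      = ∑ x ∈ X, G x 0 + ∑ m ∈ Ico 1 M, ∑ x ∈ X, G x m := hsplit
    _ ≤ 16 * (H : ℝ) ^ 4 * X.card + C0 * (2 * M + 2 * N0 / H * (1 + Real.log N0)) *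
        (6 * (T + 1) * Dv * (1 + Real.log (((T + 1) * M : ℕ) : ℝ)) * (1 + (M : ℝ) / H)) :=
        add_le_add h0 (hsum.trans hV')
    _ = _ := by ring

end Pool.Agent.TH42.LA
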