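import Pool.Agent.TH42.LA.B
import Pool.Agent.Results.MP_c307ca_nt.AlmostAllToHeight

/-!
# One dyadic range of denominators
-/

set_option autoImplicit false

namespace Pool.Agent.TH42.LA

open Finset
open Pool.Agent.Results.MP_c307ca_nt.AlmostAllToHeight (box ev card_box mem_box)

/-- the coefficients of degree at least three -/
def tail3 {n : ℕ} (a : Fin (n + 3) → ℤ) : Fin n → ℤ := fun i => a i.succ.succ.succ

/-- the remaining part of the value -/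
noncomputable def rho {n : ℕ} (b : Fin n → ℤ) (x : ℝ) : ℝ :=
  ∑ i : Fin n, (b i : ℝ) * x ^ ((i : ℕ) + 3)

theorem ev_three {n : ℕ} (a : Fin (n + 3) → ℤ) (x : ℝ) :
    ev a x = a 0 + (a 1 * x + a 2 * x ^ 2 + rho (tail3 a) x) := by
  unfold ev rho tail3
  rw [Fin.sum_univ_succ, Fin.sum_univ_succ, Fin.sum_univ_succ]
  have h1 : (Fin.succ 0 : Fin (n + 3)) = 1 := rfl
  have h2 : (Fin.succ (Fin.succ 0) : Fin (n + 3)) = 2 := rfl
  rw [h1, h2]
  have h3 : ∀ i : Fin n, ((i.succ.succ.succ : Fin (n + 3)) : ℕ) = (i : ℕ) + 3 := by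
    intro i
    simp only [Fin.val_succ]
  have h4 : ((1 : Fin (n + 3)) : ℕ) = 1 := rfl
  have h5 : ((2 : Fin (n + 3)) : ℕ) = 2 := rfl
  simp only [h3, h4, h5, Fin.val_zero, pow_zero, mul_one, pow_one]
  ring

/-- the count for one point -/
theorem point_count (n H M : ℕ) (hH : 1 ≤ H) (hM : 1 ≤ M) (x : ℝ)
    (S : Finset (Fin (n + 3) → ℤ))
    (hS : ∀ a ∈ S, a ∈ box (n + 3) (H : ℤ) ∧ |ev a x| ≤ 1 / (8 * M)) :
    (S.card : ℝ) * ((H : ℝ) ^ 2 * ((M : ℝ) ^ 2 / 4)) ≤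
      (2 * H + 1) ^ n * (2 * M * ∑ m ∈ range M,
        ‖D (2 * H) (m * x)‖ ^ 2 * ‖D (2 * H) (m * x ^ 2)‖ ^ 2) := by
  classical
  have hM0 : (0 : ℝ) < M := by exact_mod_cast hM
  have hM1 : (1 : ℝ) ≤ M := by exact_mod_cast hM
  set Z : ℝ := 2 * M * ∑ m ∈ range M,
        ‖D (2 * H) (m * x)‖ ^ 2 * ‖D (2 * H) (m * x ^ 2)‖ ^ 2 with hZ
  have hmaps : ∀ a ∈ S, tail3 a ∈ box n (H : ℤ) := by
    intro a ha
    have h1 := (hS a ha).1
    unfold Pool.Agent.Results.MP_c307ca_nt.AlmostAllToHeight.box at h1 ⊢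
    rw [Fintype.mem_piFinset] at h1 ⊢
    intro i
    exact h1 _
  have hcard : (S.card : ℝ) = ∑ b ∈ box n (H : ℤ), ((S.filter (fun a => tail3 a = b)).card : ℝ) := by
    exact_mod_cast Finset.card_eq_sum_card_fiberwise hmaps
  have hfib : ∀ b ∈ box n (H : ℤ), ((S.filter (fun a => tail3 a = b)).card : ℝ) *
      ((H : ℝ) ^ 2 * ((M : ℝ) ^ 2 / 4)) ≤ Z := by
    intro b _
    set F := S.filter (fun a => tail3 a = b) with hF
    have hinj : Set.InjOn (fun a : Fin (n + 3) → ℤ => (a 1, a 2)) (F : Set (Fin (n + 3) → ℤ)) := by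
      intro a ha a' ha' haa
      rw [Finset.mem_coe, hF, mem_filter] at ha ha'
      have h1 := (hS a ha.1).2
      have h2 := (hS a' ha'.1).2
      obtain ⟨e1, e2⟩ := (Prod.mk.injEq _ _ _ _).mp haa
      rw [ev_three, ha.2] at h1
      rw [ev_three, ha'.2, ← e1, ← e2] at h2
      have h3 : |((a 0 : ℤ) : ℝ) - (a' 0 : ℤ)| ≤ 1 / (8 * M) + 1 / (8 * M) := by
        have h4 : ((a 0 : ℤ) : ℝ) - (a' 0 : ℤ) =
            ((a 0 : ℤ) + (a 1 * x + a 2 * x ^ 2 + rho b x)) -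
            ((a' 0 : ℤ) + (a 1 * x + a 2 * x ^ 2 + rho b x)) := by ring
        rw [h4]
        refine (abs_sub _ _).trans (add_le_add h1 h2)
      have h4 : (1 : ℝ) / (8 * M) ≤ 1 / 8 := by
        apply one_div_le_one_div_of_le (by norm_num)
        linarith
      have h5 : |((a 0 : ℤ) : ℝ) - (a' 0 : ℤ)| < 1 := by linarith
      have h6 : |a 0 - a' 0| < 1 := by exact_mod_cast h5
      have h7 : a 0 = a' 0 := by
        have := Int.abs_lt_one_iff.mp h6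
        linarith
      have h8 : tail3 a = tail3 a' := by rw [ha.2, ha'.2]
      funext i
      refine Fin.cases h7 (fun i1 => ?_) i
      refine Fin.cases e1 (fun i2 => ?_) i1
      refine Fin.cases e2 (fun i3 => ?_) i2
      exact congrFun h8 i3
    have h1 := count_pair H M hH hM x (x ^ 2) (rho b x)
      (F.image (fun a : Fin (n + 3) → ℤ => (a 1, a 2))) (by
        intro y hy
        obtain ⟨a, ha, rfl⟩ := Finset.mem_image.mp hy
        rw [hF, mem_filter] at ha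
        obtain ⟨h2, h3⟩ := hS a ha.1
        unfold Pool.Agent.Results.MP_c307ca_nt.AlmostAllToHeight.box at h2
        rw [Fintype.mem_piFinset] at h2
        refine ⟨h2 1, h2 2, ?_⟩
        rw [ev_three, ha.2] at h3
        simp only
        refine (round_le _ (-(a 0))).trans ?_
        push_cast
        have h4 : (a 1 : ℝ) * x + a 2 * x ^ 2 + rho b x - -(a 0 : ℝ) =
            (a 0 : ℝ) + (a 1 * x + a 2 * x ^ 2 + rho b x) := by ring
        rw [h4]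
        exact h3)
    rw [Finset.card_image_of_injOn hinj] at h1
    calc (F.card : ℝ) * ((H : ℝ) ^ 2 * ((M : ℝ) ^ 2 / 4))
        = (F.card : ℝ) * (H : ℝ) ^ 2 * ((M : ℝ) ^ 2 / 4) := by ring
      _ ≤ Z := h1
  rw [hcard, Finset.sum_mul]
  refine (Finset.sum_le_card_nsmul _ _ _ hfib).trans ?_
  rw [nsmul_eq_mul, card_box]
  push_cast
  exact le_rfl

theorem W_alg (y H Q M t lg lM Dv : ℝ) (hH : 0 < H) (hy : 6 ≤ y) (h12 : y ^ 12 ≤ H)
    (h12Q : y ^ 12 * Q ^ 2 ≤ H ^ 3) (hM0 : 0 ≤ M) (hM : M ≤ Q ^ 2 * y / H)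
    (hlg : 8 * lg ≤ y) (ht0 : 0 ≤ t) (ht : 6 * t ≤ y) (hDv0 : 0 ≤ Dv)
    (hDv : Dv ≤ y) (hlM0 : 0 ≤ lM) (hlM : lM ≤ y) :
    (2 * M + 2 * (4 * Q ^ 2) / H * lg) * (6 * t * Dv * lM * (1 + M / H)) ≤ Q ^ 2 := by
  have hy0 : 0 < y := by linarith
  have hy1 : 1 ≤ y := by linarith
  have hQ2 : 0 ≤ Q ^ 2 := sq_nonneg Q
  have h1 : 2 * M + 2 * (4 * Q ^ 2) / H * lg ≤ 3 * (Q ^ 2 * y / H) := by
    have h2 : 2 * (4 * Q ^ 2) / H * lg = Q ^ 2 / H * (8 * lg) := by ring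
    have h3 : Q ^ 2 / H * (8 * lg) ≤ Q ^ 2 / H * y :=
      mul_le_mul_of_nonneg_left hlg (by positivity)
    have h4 : Q ^ 2 / H * y = Q ^ 2 * y / H := by ring
    linarith
  have h2 : 6 * t * Dv * lM ≤ y ^ 3 := by
    have h3 : 6 * t * Dv ≤ y * y := mul_le_mul ht hDv hDv0 hy0.le
    calc 6 * t * Dv * lM ≤ y * y * y := mul_le_mul h3 hlM hlM0 (by positivity)
      _ = y ^ 3 := by ring
  have h3 : 1 + M / H ≤ 1 + Q ^ 2 * y / H / H := by
    have := div_le_div_of_nonneg_right hM hH.le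
    linarith
  have h4 : 6 * t * Dv * lM * (1 + M / H) ≤ y ^ 3 * (1 + Q ^ 2 * y / H / H) := by
    exact mul_le_mul h2 h3 (by positivity) (by positivity)
  have h5 : 3 * (Q ^ 2 * y / H) * (y ^ 3 * (1 + Q ^ 2 * y / H / H)) =
      Q ^ 2 * (3 * y ^ 4 / H + 3 * y ^ 5 * Q ^ 2 / H ^ 3) := by
    field_simp
  have h6 : 3 * y ^ 4 / H ≤ 1 / 2 := by
    rw [div_le_iff₀ hH]
    have h7 : 6 * y ^ 4 ≤ y ^ 5 := by
      have : 0 ≤ y ^ 4 := by positivity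
      nlinarith
    have h8 : y ^ 5 ≤ y ^ 12 := pow_le_pow_right₀ hy1 (by norm_num)
    linarith
  have h7 : 3 * y ^ 5 * Q ^ 2 / H ^ 3 ≤ 1 / 2 := by
    rw [div_le_iff₀ (by positivity)]
    have h8 : 6 * y ^ 5 ≤ y ^ 6 := by
      have : 0 ≤ y ^ 5 := by positivity
      nlinarith
    have h9 : y ^ 6 ≤ y ^ 12 := pow_le_pow_right₀ hy1 (by norm_num)
    have h10 : 6 * y ^ 5 * Q ^ 2 ≤ y ^ 12 * Q ^ 2 :=
      mul_le_mul_of_nonneg_right (h8.trans h9) hQ2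
    linarith
  calc (2 * M + 2 * (4 * Q ^ 2) / H * lg) * (6 * t * Dv * lM * (1 + M / H))
      ≤ 3 * (Q ^ 2 * y / H) * (y ^ 3 * (1 + Q ^ 2 * y / H / H)) :=
        mul_le_mul h1 h4 (by positivity) (by positivity)
    _ = Q ^ 2 * (3 * y ^ 4 / H + 3 * y ^ 5 * Q ^ 2 / H ^ 3) := h5
    _ ≤ Q ^ 2 * 1 := mul_le_mul_of_nonneg_left (by linarith) hQ2
    _ = Q ^ 2 := mul_one _

/-- the rationals with denominator in a dyadic range -/
noncomputable def XX (T Q : ℕ) : Finset ℝ :=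
  ((Ico Q (2 * Q) ×ˢ Icc (-(((T + 1) * (2 * Q) : ℕ) : ℤ)) (((T + 1) * (2 * Q) : ℕ) : ℤ)).image
    (fun z : ℕ × ℤ => (z.2 : ℝ) / (z.1 : ℝ))).filter (fun x => |x| ≤ T + 1)

theorem XX_card (T Q : ℕ) (hQ : 1 ≤ Q) : ((XX T Q).card : ℝ) ≤ (4 * T + 5) * (Q : ℝ) ^ 2 := by
  have hQ1 : (1 : ℝ) ≤ Q := by exact_mod_cast hQ
  have h1 : (XX T Q).card ≤ Q * (2 * ((T + 1) * (2 * Q)) + 1) := by
    unfold XX
    refine (Finset.card_filter_le _ _).trans (Finset.card_image_le.trans ?_)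
    rw [Finset.card_product, Nat.card_Ico, Int.card_Icc]
    refine Nat.mul_le_mul (by omega) (by omega)
  have h2 : ((XX T Q).card : ℝ) ≤ ((Q * (2 * ((T + 1) * (2 * Q)) + 1) : ℕ) : ℝ) := by
    exact_mod_cast h1
  refine h2.trans ?_
  push_cast
  nlinarith

theorem XX_sep (T Q : ℕ) (hQ : 1 ≤ Q) : ∀ x ∈ XX T Q, ∀ y ∈ XX T Q, x ≠ y →
    1 / ((4 * Q ^ 2 : ℕ) : ℝ) ≤ |x - y| := by
  intro x hx y hy hxy
  unfold XX at hx hy
  rw [mem_filter, mem_image] at hx hy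
  obtain ⟨⟨⟨q, p⟩, hz, rfl⟩, _⟩ := hx
  obtain ⟨⟨⟨q', p'⟩, hz', rfl⟩, _⟩ := hy
  rw [mem_product, mem_Ico] at hz hz'
  simp only at hz hz' hxy ⊢
  have hq : (0 : ℝ) < q := by
    have : 0 < q := by omega
    exact_mod_cast this
  have hq' : (0 : ℝ) < q' := by
    have : 0 < q' := by omega
    exact_mod_cast this
  have h1 : (p : ℝ) / q - p' / q' = ((p * q' - p' * q : ℤ) : ℝ) / (q * q') := by
    push_cast
    field_simp
  have h2 : p * q' - p' * q ≠ 0 := by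
    intro h
    apply hxy
    have h3 : (p : ℝ) / q - p' / q' = 0 := by
      rw [h1, h]
      simp
    linarith
  have h3 : (1 : ℝ) ≤ |((p * q' - p' * q : ℤ) : ℝ)| := by
    exact_mod_cast Int.one_le_abs h2
  rw [h1, abs_div, abs_of_pos (mul_pos hq hq')]
  have hQ0 : (0 : ℝ) < Q := by exact_mod_cast hQ
  have h4 : (q : ℝ) ≤ 2 * Q := by
    have : q ≤ 2 * Q := by omega
    exact_mod_cast this
  have h5 : (q' : ℝ) ≤ 2 * Q := by
    have : q' ≤ 2 * Q := by omega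
    exact_mod_cast this
  have e0 : ((4 * Q ^ 2 : ℕ) : ℝ) = 4 * (Q : ℝ) ^ 2 := by push_cast; rfl
  rw [e0, div_le_div_iff₀ (by positivity) (by positivity)]
  have h6 : (q : ℝ) * q' ≤ (2 * Q) * (2 * Q) := mul_le_mul h4 h5 hq'.le (by positivity)
  have h7 := mul_le_mul_of_nonneg_right h3 (by positivity : (0 : ℝ) ≤ 4 * (Q : ℝ) ^ 2)
  linarith

/-- **One dyadic range.** -/
theorem level (n T H Q : ℕ) (KC L y : ℝ) (hH : 1 ≤ H) (hQ : H ≤ Q) (hK : 1 ≤ KC)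
    (hL : 1 ≤ L) (hy : 6 ≤ y) (hLy : L ≤ y) (h12 : y ^ 12 ≤ H)
    (h12Q : y ^ 12 * (Q : ℝ) ^ 2 ≤ (H : ℝ) ^ 3)
    (hlog : 8 * (1 + Real.log (4 * (Q : ℝ) ^ 2)) ≤ y) (hT : 6 * ((T : ℝ) + 2) ≤ y)
    (hlogH : 1 + 2 * Real.log H ≤ y)
    (hdiv : ∀ k : ℕ, 1 ≤ k → (k : ℝ) ≤ (H : ℝ) ^ 5 → (k.divisors.card : ℝ) ≤ y)
    (h8 : 8 * KC ≤ H) :
    ∃ B : Finset (Fin (n + 3) → ℤ),
      (∀ a ∈ box (n + 3) (H : ℤ), ∀ (p : ℤ) (q : ℕ), Q ≤ q → q < 2 * Q →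
        |(p : ℝ) / q| ≤ T + 1 → |ev a ((p : ℝ) / q)| ≤ KC * H / ((Q : ℝ) ^ 2 * L) → a ∈ B) ∧
      (B.card : ℝ) ≤ 3 ^ n * 128 * (16 * (4 * T + 5) + 256 * (2 * T + 4)) * KC *
        ((H : ℝ) ^ (n + 3) / L) := by
  classical
  have hH0 : (0 : ℝ) < H := by exact_mod_cast hH
  have hH1 : (1 : ℝ) ≤ H := by exact_mod_cast hH
  have hQ1 : 1 ≤ Q := hH.trans hQ
  have hQ0 : (0 : ℝ) < Q := by exact_mod_cast hQ1
  have hQH : (H : ℝ) ≤ Q := by exact_mod_cast hQ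
  have hL0 : 0 < L := by linarith
  have hK0 : 0 < KC := by linarith
  have hy0 : 0 < y := by linarith
  have hy1 : 1 ≤ y := by linarith
  set v : ℝ := (Q : ℝ) ^ 2 * L / (8 * KC * H) with hv
  set M : ℕ := ⌊v⌋₊ with hM
  have hv1 : 1 ≤ v := by
    rw [hv, le_div_iff₀ (by positivity), one_mul]
    have h1 : (H : ℝ) * H ≤ (Q : ℝ) ^ 2 := by nlinarith
    have h2 : (Q : ℝ) ^ 2 ≤ (Q : ℝ) ^ 2 * L := by
      have : 0 ≤ (Q : ℝ) ^ 2 := by positivity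
      nlinarith
    have h3 : 8 * KC * H ≤ (H : ℝ) * H := mul_le_mul_of_nonneg_right h8 hH0.le
    linarith
  have hM1 : 1 ≤ M := Nat.le_floor (by simpa using hv1)
  have hM0 : (0 : ℝ) < M := by exact_mod_cast hM1
  have hM1' : (1 : ℝ) ≤ M := by exact_mod_cast hM1
  have hMv : (M : ℝ) ≤ v := Nat.floor_le (by linarith)
  have hvM : v ≤ 2 * M := by
    have := Nat.lt_floor_add_one v
    rw [← hM] at this
    linarith
  have hMy : (M : ℝ) ≤ (Q : ℝ) ^ 2 * y / H := by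
    refine hMv.trans ?_
    rw [hv, div_le_div_iff₀ (by positivity) hH0]
    have h1 : (Q : ℝ) ^ 2 * L ≤ (Q : ℝ) ^ 2 * y := mul_le_mul_of_nonneg_left hLy (by positivity)
    have h2 : (H : ℝ) ≤ 8 * KC * H := by nlinarith
    exact mul_le_mul h1 h2 hH0.le (by positivity)
  have hTM : ((T : ℝ) + 2) * M ≤ (H : ℝ) ^ 2 := by
    have h1 : (T : ℝ) + 2 ≤ y := by
      have : (0 : ℝ) ≤ T := Nat.cast_nonneg T
      linarith
    calc ((T : ℝ) + 2) * M ≤ y * ((Q : ℝ) ^ 2 * y / H) :=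
          mul_le_mul h1 hMy hM0.le hy0.le
      _ = y ^ 2 * (Q : ℝ) ^ 2 / H := by ring
      _ ≤ y ^ 12 * (Q : ℝ) ^ 2 / H := by
          have : y ^ 2 ≤ y ^ 12 := pow_le_pow_right₀ hy1 (by norm_num)
          gcongr
      _ ≤ (H : ℝ) ^ 3 / H := div_le_div_of_nonneg_right h12Q hH0.le
      _ = (H : ℝ) ^ 2 := by field_simp
  have hT0 : (0 : ℝ) ≤ T := Nat.cast_nonneg T
  have hMH : (M : ℝ) ≤ (H : ℝ) ^ 2 := by nlinarith
  set Dv : ℕ := ⌊y⌋₊ with hDv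
  have hDvy : (Dv : ℝ) ≤ y := Nat.floor_le hy0.le
  have hD : ∀ k : ℕ, 1 ≤ k → k ≤ ((T + 1 + 1) * M) ^ 2 + M → k.divisors.card ≤ Dv := by
    intro k hk hkb
    apply Nat.le_floor
    refine hdiv k hk ?_
    have h1 : (k : ℝ) ≤ (((T : ℝ) + 1 + 1) * M) ^ 2 + M := by exact_mod_cast hkb
    have h2 : ((T : ℝ) + 1 + 1) * M ≤ (H : ℝ) ^ 2 := by
      have : (T : ℝ) + 1 + 1 = T + 2 := by ring
      rw [this]
      exact hTM
    have h3 : (((T : ℝ) + 1 + 1) * M) ^ 2 ≤ ((H : ℝ) ^ 2) ^ 2 :=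
      pow_le_pow_left₀ (by positivity) h2 2
    have hH2 : (2 : ℝ) ≤ H := by
      have : y ^ 1 ≤ y ^ 12 := pow_le_pow_right₀ hy1 (by norm_num)
      rw [pow_one] at this
      linarith
    have h4 : ((H : ℝ) ^ 2) ^ 2 = (H : ℝ) ^ 4 := by ring
    have h5 : (H : ℝ) ^ 2 ≤ (H : ℝ) ^ 4 := pow_le_pow_right₀ hH1 (by norm_num)
    have h6 : (2 : ℝ) * (H : ℝ) ^ 4 ≤ (H : ℝ) ^ 5 := by
      have : 0 ≤ (H : ℝ) ^ 4 := by positivity
      nlinarith
    linarith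
  set X := XX T Q with hX
  have hN0 : 2 ≤ 4 * Q ^ 2 := by nlinarith
  have hmean := mean_bound X H (T + 1) M (4 * Q ^ 2) Dv hH hM1 hN0 (by
    intro x hx
    rw [hX] at hx
    unfold XX at hx
    rw [mem_filter] at hx
    push_cast
    exact hx.2) (XX_sep T Q hQ1) hD
  set S : ℝ → Finset (Fin (n + 3) → ℤ) := fun x =>
    (box (n + 3) (H : ℤ)).filter (fun a => |ev a x| ≤ 1 / (8 * M)) with hS
  refine ⟨X.biUnion S, ?_, ?_⟩
  · intro a ha p q hq1 hq2 hpq hev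
    rw [mem_biUnion]
    refine ⟨(p : ℝ) / q, ?_, ?_⟩
    · rw [hX]
      unfold XX
      rw [mem_filter, mem_image]
      refine ⟨⟨(q, p), ?_, rfl⟩, hpq⟩
      rw [mem_product, mem_Ico, mem_Icc]
      refine ⟨⟨hq1, hq2⟩, ?_⟩
      have hq0 : (0 : ℝ) < q := by
        have : 0 < q := by omega
        exact_mod_cast this
      rw [abs_div, abs_of_pos hq0, div_le_iff₀ hq0] at hpq
      have h1 : |(p : ℝ)| ≤ (((T + 1) * (2 * Q) : ℕ) : ℝ) := by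
        refine hpq.trans ?_
        push_cast
        have : (q : ℝ) ≤ 2 * Q := by exact_mod_cast hq2.le
        exact mul_le_mul_of_nonneg_left this (by positivity)
      have h2 : |p| ≤ (((T + 1) * (2 * Q) : ℕ) : ℤ) := by exact_mod_cast h1
      exact abs_le.mp h2
    · simp only [hS]
      rw [mem_filter]
      refine ⟨ha, hev.trans ?_⟩
      have h1 : KC * H / ((Q : ℝ) ^ 2 * L) = 1 / (8 * v) := by
        rw [hv]
        field_simp
      rw [h1]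
      apply one_div_le_one_div_of_le (by positivity)
      linarith
  · have hpt : ∀ x ∈ X, ((S x).card : ℝ) * ((H : ℝ) ^ 2 * ((M : ℝ) ^ 2 / 4)) ≤
        (2 * H + 1) ^ n * (2 * M * ∑ m ∈ range M,
        ‖D (2 * H) (m * x)‖ ^ 2 * ‖D (2 * H) (m * x ^ 2)‖ ^ 2) := by
      intro x _
      refine point_count n H M hH hM1 x (S x) ?_
      intro a ha
      simp only [hS] at ha
      rw [mem_filter] at ha
      exact ha
    have hsum := Finset.sum_le_sum hpt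
    rw [← Finset.sum_mul, ← Finset.mul_sum, ← Finset.mul_sum] at hsum
    have hW : (2 * (M : ℝ) + 2 * (4 * (Q : ℝ) ^ 2) / H * (1 + Real.log (4 * (Q : ℝ) ^ 2))) *
        (6 * ((T : ℝ) + 2) * Dv * (1 + Real.log (((T : ℝ) + 2) * M)) * (1 + (M : ℝ) / H)) ≤
        (Q : ℝ) ^ 2 := by
      have hlogTM0 : 0 ≤ Real.log (((T : ℝ) + 2) * M) := by
        apply Real.log_nonneg
        nlinarith
      have hlogTM : Real.log (((T : ℝ) + 2) * M) ≤ 2 * Real.log H := by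
        have h1 : Real.log (((T : ℝ) + 2) * M) ≤ Real.log ((H : ℝ) ^ 2) :=
          Real.log_le_log (by positivity) hTM
        rw [Real.log_pow] at h1
        push_cast at h1
        exact h1
      exact W_alg y H Q M ((T : ℝ) + 2) _ _ Dv hH0 hy h12 h12Q hM0.le hMy hlog (by positivity) hT
        (by positivity) hDvy (by linarith) (by linarith)
    have hmean2 : ∑ x ∈ X, ∑ m ∈ range M,
        ‖D (2 * H) (m * x)‖ ^ 2 * ‖D (2 * H) (m * x ^ 2)‖ ^ 2 ≤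
        (16 * (4 * T + 5) + 256 * (2 * T + 4)) * (H : ℝ) ^ 4 * (Q : ℝ) ^ 2 := by
      refine hmean.trans ?_
      have hXc := XX_card T Q hQ1
      rw [← hX] at hXc
      have h1 : 16 * (H : ℝ) ^ 4 * X.card ≤ 16 * (H : ℝ) ^ 4 * ((4 * T + 5) * (Q : ℝ) ^ 2) :=
        mul_le_mul_of_nonneg_left hXc (by positivity)
      have h2 : 256 * (2 * (((T + 1 : ℕ) : ℝ)) + 2) * (H : ℝ) ^ 4 *
        ((2 * M + 2 * ((4 * Q ^ 2 : ℕ) : ℝ) / H * (1 + Real.log ((4 * Q ^ 2 : ℕ) : ℝ))) *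
        (6 * (((T + 1 : ℕ) : ℝ) + 1) * Dv * (1 + Real.log (((T + 1 + 1) * M : ℕ) : ℝ)) *
          (1 + (M : ℝ) / H))) ≤ 256 * (2 * T + 4) * (H : ℝ) ^ 4 * (Q : ℝ) ^ 2 := by
        have e1 : (((T + 1 : ℕ) : ℝ)) = T + 1 := by push_cast; rfl
        have e2 : ((4 * Q ^ 2 : ℕ) : ℝ) = 4 * (Q : ℝ) ^ 2 := by push_cast; rfl
        have e3 : (((T + 1 + 1) * M : ℕ) : ℝ) = ((T : ℝ) + 2) * M := by push_cast; ring
        have e4 : (T : ℝ) + 1 + 1 = T + 2 := by ring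
        have e5 : 2 * ((T : ℝ) + 1) + 2 = 2 * T + 4 := by ring
        rw [e1, e2, e3, e4, e5]
        exact mul_le_mul_of_nonneg_left hW (by positivity)
      calc _ ≤ 16 * (H : ℝ) ^ 4 * ((4 * T + 5) * (Q : ℝ) ^ 2) +
            256 * (2 * T + 4) * (H : ℝ) ^ 4 * (Q : ℝ) ^ 2 := add_le_add h1 h2
        _ = _ := by ring
    have hBcard : ((X.biUnion S).card : ℝ) ≤ ∑ x ∈ X, ((S x).card : ℝ) := by
      exact_mod_cast Finset.card_biUnion_le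
    set C1 : ℝ := 16 * (4 * T + 5) + 256 * (2 * T + 4) with hC1
    have hC10 : 0 < C1 := by rw [hC1]; positivity
    have h3 : (∑ x ∈ X, ((S x).card : ℝ)) * ((H : ℝ) ^ 2 * ((M : ℝ) ^ 2 / 4)) ≤
        (3 * H) ^ n * (2 * M * (C1 * (H : ℝ) ^ 4 * (Q : ℝ) ^ 2)) := by
      refine hsum.trans ?_
      refine mul_le_mul (pow_le_pow_left₀ (by positivity) (by linarith) n) ?_ (by positivity)
        (by positivity)
      exact mul_le_mul_of_nonneg_left hmean2 (by positivity)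
    refine hBcard.trans ?_
    have h4 : (∑ x ∈ X, ((S x).card : ℝ)) ≤
        (3 * H) ^ n * (8 * (C1 * (H : ℝ) ^ 2 * (Q : ℝ) ^ 2)) / M := by
      rw [le_div_iff₀ hM0]
      have h5 : 0 < (H : ℝ) ^ 2 * (M / 4) := by positivity
      have h6 : (∑ x ∈ X, ((S x).card : ℝ)) * M * ((H : ℝ) ^ 2 * (M / 4)) ≤
          (3 * H) ^ n * (8 * (C1 * (H : ℝ) ^ 2 * (Q : ℝ) ^ 2)) * ((H : ℝ) ^ 2 * (M / 4)) := by
        calc (∑ x ∈ X, ((S x).card : ℝ)) * M * ((H : ℝ) ^ 2 * (M / 4))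
            = (∑ x ∈ X, ((S x).card : ℝ)) * ((H : ℝ) ^ 2 * ((M : ℝ) ^ 2 / 4)) := by ring
          _ ≤ (3 * H) ^ n * (2 * M * (C1 * (H : ℝ) ^ 4 * (Q : ℝ) ^ 2)) := h3
          _ = _ := by ring
      exact le_of_mul_le_mul_right h6 h5
    refine h4.trans ?_
    have h7 : (Q : ℝ) ^ 2 / M ≤ 16 * KC * H / L := by
      rw [div_le_div_iff₀ hM0 hL0]
      have h8 : (Q : ℝ) ^ 2 * L = v * (8 * KC * H) := by
        rw [hv]
        field_simp
      rw [h8]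
      have h9 : v * (8 * KC * H) ≤ 2 * M * (8 * KC * H) :=
        mul_le_mul_of_nonneg_right hvM (by positivity)
      linarith
    calc (3 * (H : ℝ)) ^ n * (8 * (C1 * (H : ℝ) ^ 2 * (Q : ℝ) ^ 2)) / M
        = (3 * (H : ℝ)) ^ n * (8 * (C1 * (H : ℝ) ^ 2)) * ((Q : ℝ) ^ 2 / M) := by ring
      _ ≤ (3 * (H : ℝ)) ^ n * (8 * (C1 * (H : ℝ) ^ 2)) * (16 * KC * H / L) :=
          mul_le_mul_of_nonneg_left h7 (by positivity)
      _ = 3 ^ n * 128 * C1 * KC * ((H : ℝ) ^ (n + 3) / L) := by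
          rw [mul_pow]
          ring

end Pool.Agent.TH42.LA
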