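import Pool.Agent.TH42.LA.C

/-!
# Choice of the parameters
-/

set_option autoImplicit false

namespace Pool.Agent.TH42.LA

open Finset Filter

/-- The divisor bound `d(n) ≤ C n^δ` (copied from the library file on `S17662`). -/
lemma divisor_bound (δ : ℝ) (hδ : 0 < δ) :
    ∃ C : ℝ, 0 < C ∧ ∀ n : ℕ, n ≠ 0 → ((n.divisors.card : ℕ) : ℝ) ≤ C * (n : ℝ) ^ δ := by
  have hlog : 0 < Real.log 2 := Real.log_pos (by norm_num)
  have hδl : 0 < δ * Real.log 2 := mul_pos hδ hlog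
  set M : ℝ := max 1 (1 / (δ * Real.log 2)) with hM
  have hM1 : 1 ≤ M := le_max_left _ _
  have hM2 : 1 ≤ M * (δ * Real.log 2) := by
    have : 1 / (δ * Real.log 2) ≤ M := le_max_right _ _
    calc (1 : ℝ) = 1 / (δ * Real.log 2) * (δ * Real.log 2) := by
          field_simp
      _ ≤ M * (δ * Real.log 2) := mul_le_mul_of_nonneg_right this hδl.le
  set K : ℕ := ⌈(2 : ℝ) ^ (1 / δ)⌉₊ with hK
  have hKle : (2 : ℝ) ^ (1 / δ) ≤ (K : ℝ) := Nat.le_ceil _
  refine ⟨M ^ K, by positivity, ?_⟩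
  intro n hn
  have hbase : ∀ p ∈ n.primeFactors, (((n.factorization p + 1 : ℕ)) : ℝ) ≤
      (if p < K then M else 1) * (((p : ℝ) ^ (n.factorization p)) ^ δ) := by
    intro p hp
    have hpp : p.Prime := Nat.prime_of_mem_primeFactors hp
    set a := n.factorization p with ha
    have hp2 : (2 : ℝ) ≤ (p : ℝ) := by exact_mod_cast hpp.two_le
    have hp0 : (0 : ℝ) ≤ (p : ℝ) := by positivity
    have hpow : (((p : ℝ) ^ a) ^ δ) = ((p : ℝ) ^ δ) ^ a := by
      rw [← Real.rpow_natCast (p : ℝ) a, ← Real.rpow_mul hp0, ← Real.rpow_natCast ((p : ℝ) ^ δ) a,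
        ← Real.rpow_mul hp0, mul_comm]
    rw [hpow]
    split_ifs with hlt
    · have h1 : (2 : ℝ) ^ δ ≤ (p : ℝ) ^ δ := Real.rpow_le_rpow (by norm_num) hp2 hδ.le
      have h2 : ((2 : ℝ) ^ δ) ^ a ≤ ((p : ℝ) ^ δ) ^ a :=
        pow_le_pow_left₀ (by positivity) h1 a
      have h3 : 1 + (a : ℝ) * (δ * Real.log 2) ≤ ((2 : ℝ) ^ δ) ^ a := by
        have : ((2 : ℝ) ^ δ) ^ a = Real.exp ((a : ℝ) * (δ * Real.log 2)) := by
          rw [← Real.rpow_natCast, ← Real.rpow_mul (by norm_num), Real.rpow_def_of_pos (by norm_num)]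
          congr 1; ring
        rw [this]
        have := Real.add_one_le_exp ((a : ℝ) * (δ * Real.log 2))
        linarith
      have h4 : (((a + 1 : ℕ)) : ℝ) ≤ M * (1 + (a : ℝ) * (δ * Real.log 2)) := by
        push_cast
        have ha0 : (0 : ℝ) ≤ (a : ℝ) := by positivity
        nlinarith [mul_le_mul_of_nonneg_left hM2 ha0]
      calc (((a + 1 : ℕ)) : ℝ) ≤ M * (1 + (a : ℝ) * (δ * Real.log 2)) := h4
        _ ≤ M * (((p : ℝ) ^ δ) ^ a) :=
          mul_le_mul_of_nonneg_left (h3.trans h2) (by linarith)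
    · have hKp : (K : ℝ) ≤ (p : ℝ) := by exact_mod_cast not_lt.mp hlt
      have h1 : (2 : ℝ) ≤ (p : ℝ) ^ δ := by
        have h5 : ((2 : ℝ) ^ (1 / δ)) ^ δ ≤ (p : ℝ) ^ δ :=
          Real.rpow_le_rpow (by positivity) (hKle.trans hKp) hδ.le
        have h6 : ((2 : ℝ) ^ (1 / δ)) ^ δ = 2 := by
          rw [← Real.rpow_mul (by norm_num)]
          rw [one_div, inv_mul_cancel₀ hδ.ne', Real.rpow_one]
        rwa [h6] at h5
      have h2 : (2 : ℝ) ^ a ≤ ((p : ℝ) ^ δ) ^ a := pow_le_pow_left₀ (by norm_num) h1 a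
      have h3 : (((a + 1 : ℕ)) : ℝ) ≤ (2 : ℝ) ^ a := by
        have : a + 1 ≤ 2 ^ a := Nat.lt_two_pow_self
        exact_mod_cast this
      rw [one_mul]
      exact h3.trans h2
  have hn' : (n : ℝ) ^ δ = ∏ p ∈ n.primeFactors, (((p : ℝ) ^ (n.factorization p)) ^ δ) := by
    rw [Real.finsetProd_rpow _ _ (fun i _ => by positivity)]
    congr 1
    have := Nat.prod_factorization_pow_eq_self hn
    conv_lhs => rw [← this]
    rw [Finsupp.prod]
    push_cast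
    rfl
  rw [Nat.card_divisors hn]
  push_cast
  calc (∏ p ∈ n.primeFactors, ((n.factorization p : ℝ) + 1))
      ≤ ∏ p ∈ n.primeFactors, ((if p < K then M else 1) * (((p : ℝ) ^ (n.factorization p)) ^ δ)) := by
        apply Finset.prod_le_prod
        · intro i _; positivity
        · intro i hi
          have := hbase i hi
          push_cast at this
          exact this
    _ = (∏ p ∈ n.primeFactors, (if p < K then M else 1)) * (n : ℝ) ^ δ := by
        rw [Finset.prod_mul_distrib, hn']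
    _ ≤ M ^ K * (n : ℝ) ^ δ := by
        apply mul_le_mul_of_nonneg_right _ (by positivity)
        rw [Finset.prod_ite, Finset.prod_const, Finset.prod_const_one, mul_one]
        apply pow_le_pow_right₀ hM1
        calc (n.primeFactors.filter (fun p => p < K)).card ≤ (Finset.range K).card := by
              apply Finset.card_le_card
              intro x hx
              simp only [Finset.mem_filter] at hx
              exact Finset.mem_range.mpr hx.2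
          _ = K := Finset.card_range K

theorem log_pow_le (r τ C : ℝ) (hτ : 0 < τ) (hC : 0 < C) :
    ∀ᶠ H : ℕ in atTop, C * (Real.log H) ^ r ≤ (H : ℝ) ^ τ := by
  have h1 := (isLittleO_log_rpow_rpow_atTop r hτ).bound (by positivity : (0 : ℝ) < 1 / C)
  have h2 := tendsto_natCast_atTop_atTop (R := ℝ) |>.eventually h1
  filter_upwards [h2, eventually_ge_atTop 1] with H hH hH1
  have hH0 : (0 : ℝ) < H := by exact_mod_cast hH1
  rw [Real.norm_of_nonneg (Real.rpow_nonneg hH0.le τ)] at hH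
  have h3 : Real.log H ^ r ≤ 1 / C * (H : ℝ) ^ τ := (le_abs_self _).trans hH
  calc C * (Real.log H) ^ r ≤ C * (1 / C * (H : ℝ) ^ τ) := mul_le_mul_of_nonneg_left h3 hC.le
    _ = (H : ℝ) ^ τ := by field_simp

theorem const_le_rpow (τ C : ℝ) (hτ : 0 < τ) : ∀ᶠ H : ℕ in atTop, C ≤ (H : ℝ) ^ τ :=
  ((tendsto_rpow_atTop hτ).comp (tendsto_natCast_atTop_atTop (R := ℝ))).eventually_ge_atTop C

theorem params (T : ℕ) (KC ε κ C3 : ℝ) (hε : 0 < ε) (hκ : κ < 3 / 2) :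
    ∀ᶠ H : ℕ in atTop, 3 ≤ H ∧ 8 * KC ≤ H ∧ C3 ≤ Real.log H ^ ε ∧ ∃ y : ℝ, 6 ≤ y ∧
      (2 * Real.log H) ^ (1 + ε) ≤ y ∧ y ^ 12 ≤ H ∧
      (∀ Q : ℕ, (Q : ℝ) ≤ (H : ℝ) ^ κ → y ^ 12 * (Q : ℝ) ^ 2 ≤ (H : ℝ) ^ 3) ∧
      8 * (1 + (Real.log 4 + 4 * Real.log H)) ≤ y ∧ 6 * ((T : ℝ) + 2) ≤ y ∧
      ∀ k : ℕ, 1 ≤ k → (k : ℝ) ≤ (H : ℝ) ^ 5 → (k.divisors.card : ℝ) ≤ y := by
  set τ : ℝ := min 1 (3 - 2 * κ) / 12 with hτdef
  have hτ : 0 < τ := by
    have : 0 < min 1 (3 - 2 * κ) := lt_min one_pos (by linarith)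
    positivity
  have hτ1 : τ * 12 ≤ 1 := by
    have := min_le_left 1 (3 - 2 * κ)
    rw [hτdef]
    linarith
  have hτ2 : τ * 12 + κ * 2 ≤ 3 := by
    have := min_le_right 1 (3 - 2 * κ)
    rw [hτdef]
    linarith
  obtain ⟨Cd, hCd0, hCd⟩ := divisor_bound (τ / 10) (by positivity)
  have hlogt : Tendsto (fun H : ℕ => Real.log (H : ℝ) ^ ε) atTop atTop :=
    ((tendsto_rpow_atTop hε).comp Real.tendsto_log_atTop).comp
      (tendsto_natCast_atTop_atTop (R := ℝ))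
  filter_upwards [eventually_ge_atTop 3, (tendsto_natCast_atTop_atTop (R := ℝ)).eventually_ge_atTop
    (8 * KC), hlogt.eventually_ge_atTop C3, const_le_rpow τ 6 hτ,
    log_pow_le (1 + ε) τ (2 ^ (1 + ε)) hτ (by positivity),
    log_pow_le 1 τ 64 hτ (by norm_num), const_le_rpow τ (16 * (1 + Real.log 4)) hτ,
    const_le_rpow τ (6 * ((T : ℝ) + 2)) hτ, const_le_rpow (τ / 2) Cd (by positivity)]
    with H h3 h8 hC h6 hl1 hl2 hl3 hT6 hCd2
  have hH0 : (0 : ℝ) < H := by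
    have : 0 < H := by omega
    exact_mod_cast this
  have hH1 : (1 : ℝ) ≤ H := by
    have : 1 ≤ H := by omega
    exact_mod_cast this
  have hlog0 : 0 ≤ Real.log (H : ℝ) := Real.log_nonneg hH1
  have hy12 : ((H : ℝ) ^ τ) ^ 12 = (H : ℝ) ^ (τ * 12) := by
    rw [← Real.rpow_natCast, ← Real.rpow_mul hH0.le]
    norm_num
  refine ⟨h3, h8, hC, (H : ℝ) ^ τ, h6, ?_, ?_, ?_, ?_, hT6, ?_⟩
  · rw [Real.mul_rpow (by norm_num) hlog0]
    exact hl1
  · rw [hy12]
    calc (H : ℝ) ^ (τ * 12) ≤ (H : ℝ) ^ (1 : ℝ) := Real.rpow_le_rpow_of_exponent_le hH1 hτ1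
      _ = H := Real.rpow_one _
  · intro Q hQ
    rw [hy12]
    have h1 : (Q : ℝ) ^ 2 ≤ ((H : ℝ) ^ κ) ^ 2 := pow_le_pow_left₀ (Nat.cast_nonneg Q) hQ 2
    have h2 : ((H : ℝ) ^ κ) ^ 2 = (H : ℝ) ^ (κ * 2) := by
      rw [← Real.rpow_natCast, ← Real.rpow_mul hH0.le]
      norm_num
    rw [h2] at h1
    calc (H : ℝ) ^ (τ * 12) * (Q : ℝ) ^ 2 ≤ (H : ℝ) ^ (τ * 12) * (H : ℝ) ^ (κ * 2) :=
          mul_le_mul_of_nonneg_left h1 (by positivity)
      _ = (H : ℝ) ^ (τ * 12 + κ * 2) := (Real.rpow_add hH0 _ _).symm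
      _ ≤ (H : ℝ) ^ (3 : ℝ) := Real.rpow_le_rpow_of_exponent_le hH1 hτ2
      _ = (H : ℝ) ^ 3 := by
          rw [← Real.rpow_natCast]
          norm_num
  · rw [Real.rpow_one] at hl2
    linarith
  · intro k hk hkH
    have h1 := hCd k (by omega)
    have h2 : (k : ℝ) ^ (τ / 10) ≤ ((H : ℝ) ^ 5) ^ (τ / 10) :=
      Real.rpow_le_rpow (Nat.cast_nonneg k) hkH (by positivity)
    have h3 : ((H : ℝ) ^ 5) ^ (τ / 10) = (H : ℝ) ^ (τ / 2) := by
      rw [← Real.rpow_natCast, ← Real.rpow_mul hH0.le]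
      congr 1
      push_cast
      ring
    rw [h3] at h2
    calc (k.divisors.card : ℝ) ≤ Cd * (k : ℝ) ^ (τ / 10) := h1
      _ ≤ (H : ℝ) ^ (τ / 2) * (H : ℝ) ^ (τ / 2) :=
          mul_le_mul hCd2 h2 (by positivity) (by positivity)
      _ = (H : ℝ) ^ τ := by
          rw [← Real.rpow_add hH0]
          congr 1
          ring

end Pool.Agent.TH42.LA
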