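import Pool.Agent.TH42.LA.E

/-!
# The count for denominators beyond the height
-/

set_option autoImplicit false

namespace Pool.Agent.TH42.LA

open Finset Filter
open Pool.Agent.Results.MP_c307ca_nt.AlmostAllToHeight (ev card_box mem_box KK KK_nonneg
  ev_sub lead_small LR card_LR w w_pos w_anti w_le w_eq ev_eq_aeval polZ polZ_coeff)

theorem KK_ge_one (n T : ℕ) : 1 ≤ KK (n + 2) T := by
  unfold KK
  have hn : (0 : ℝ) ≤ n := Nat.cast_nonneg n
  have hT : (0 : ℝ) ≤ T := Nat.cast_nonneg T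
  have h1 : (1 : ℝ) ≤ ((T : ℝ) + 1) ^ (n + 2) := one_le_pow₀ (by linarith)
  push_cast
  have h2 : (1 : ℝ) ≤ ((n : ℝ) + 2) * ((T : ℝ) + 1) ^ (n + 2) := by nlinarith
  nlinarith

theorem coeff_count (n T : ℕ) (hT : 2 ≤ T) (κ ε η c : ℝ) (hε : 0 < ε) (hη : 0 < η)
    (hκ : κ < 3 / 2) (hc0 : 0 < c) (hc : c ≤ 1) (hc1 : c ≤ Real.log 2 ^ (1 + ε)) :
    ∀ᶠ H : ℕ in atTop, ∀ BB : Finset (Fin (n + 3) → ℤ),
      (∀ a ∈ BB, (∀ i, |a i| ≤ (H : ℤ)) ∧ a (Fin.last (n + 2)) ≠ 0 ∧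
        ∃ ξ : ℝ, ev a ξ = 0 ∧ ∃ (p : ℤ) (q : ℕ), H < q ∧ (q : ℝ) ≤ (H : ℝ) ^ κ ∧
          |ξ - (p : ℝ) / q| ≤ c * w ε q) →
      (BB.card : ℝ) ≤ (H : ℝ) ^ (n + 3) * (2 * 3 ^ (n + 2) / (T - 1) + η) := by
  classical
  set KC : ℝ := KK (n + 2) T with hKC
  have hKC1 : 1 ≤ KC := KK_ge_one n T
  set C2 : ℝ := 3 ^ n * 128 * (16 * (4 * T + 5) + 256 * (2 * T + 4)) * KC with hC2
  have hC20 : 0 < C2 := by
    rw [hC2]
    positivity
  filter_upwards [params T KC ε κ (3 * C2 / η) hε hκ]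
  rintro H ⟨h3, h8, hC, y, h6, hL2, h12, h12Q, hlog, hT6, hdiv⟩
  intro BB hB
  have hH1 : 1 ≤ H := by omega
  have hH0 : (0 : ℝ) < H := by exact_mod_cast hH1
  have hH1R : (1 : ℝ) ≤ H := by exact_mod_cast hH1
  have hH3 : (3 : ℝ) ≤ H := by exact_mod_cast h3
  have hlogH : 1 ≤ Real.log H := by
    rw [Real.le_log_iff_exp_le hH0]
    have := Real.exp_one_lt_d9
    linarith
  have hlog4 : 0 ≤ Real.log 4 := Real.log_nonneg (by norm_num)
  have hκ2 : (H : ℝ) ^ κ ≤ (H : ℝ) ^ 2 := by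
    rw [← Real.rpow_natCast]
    exact Real.rpow_le_rpow_of_exponent_le hH1R (by push_cast; linarith)
  have hlev : ∀ j : ℕ, ∃ B : Finset (Fin (n + 3) → ℤ),
      (((2 ^ j * H : ℕ) : ℝ) ≤ (H : ℝ) ^ κ →
        ∀ a ∈ Pool.Agent.Results.MP_c307ca_nt.AlmostAllToHeight.box (n + 3) (H : ℤ),
          ∀ (p : ℤ) (q : ℕ), 2 ^ j * H ≤ q → q < 2 * (2 ^ j * H) →
          |(p : ℝ) / q| ≤ T + 1 → |ev a ((p : ℝ) / q)| ≤ KC * H / (((2 ^ j * H : ℕ) : ℝ) ^ 2 *
            Real.log ((2 ^ j * H : ℕ) : ℝ) ^ (1 + ε)) → a ∈ B) ∧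
      (B.card : ℝ) ≤ C2 * ((H : ℝ) ^ (n + 3) / Real.log H ^ (1 + ε)) := by
    intro j
    by_cases hj : ((2 ^ j * H : ℕ) : ℝ) ≤ (H : ℝ) ^ κ
    · have hHQ : H ≤ 2 ^ j * H := Nat.le_mul_of_pos_left H (by positivity)
      set Q : ℕ := 2 ^ j * H with hQ
      have hHQR : (H : ℝ) ≤ Q := by exact_mod_cast hHQ
      have hQ0 : (0 : ℝ) < Q := by linarith
      have hlogQ1 : Real.log H ≤ Real.log Q := Real.log_le_log hH0 hHQR
      have hlogQ2 : Real.log Q ≤ 2 * Real.log H := by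
        have h1 : Real.log Q ≤ Real.log ((H : ℝ) ^ 2) := Real.log_le_log hQ0 (hj.trans hκ2)
        rw [Real.log_pow] at h1
        push_cast at h1
        exact h1
      have hL1 : 1 ≤ Real.log Q ^ (1 + ε) := Real.one_le_rpow (by linarith) (by linarith)
      obtain ⟨B, hB1, hB2⟩ := level n T H Q KC (Real.log Q ^ (1 + ε)) y hH1 hHQ hKC1 hL1 h6
        ((Real.rpow_le_rpow (by linarith) hlogQ2 (by linarith)).trans hL2) h12 (h12Q Q hj) (by
          rw [Real.log_mul (by norm_num) (by positivity), Real.log_pow]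
          push_cast
          linarith) hT6 (by linarith) hdiv h8
      refine ⟨B, fun _ => hB1, hB2.trans ?_⟩
      refine mul_le_mul_of_nonneg_left ?_ hC20.le
      apply div_le_div_of_nonneg_left (by positivity) (by positivity)
      exact Real.rpow_le_rpow (by linarith) hlogQ1 (by linarith)
    · refine ⟨∅, fun h => absurd h hj, ?_⟩
      rw [Finset.card_empty, Nat.cast_zero]
      positivity
  choose B hB1 hB2 using hlev
  set J : ℕ := Nat.log 2 H + 1 with hJ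
  have hJ3 : (J : ℝ) ≤ 3 * Real.log H := by
    have h1 : ((2 : ℝ) ^ (Nat.log 2 H)) ≤ H := by
      exact_mod_cast Nat.pow_log_le_self 2 (by omega : H ≠ 0)
    have h2 : (Nat.log 2 H : ℝ) * Real.log 2 ≤ Real.log H := by
      rw [← Real.log_pow]
      exact Real.log_le_log (by positivity) h1
    have h4 := Real.log_two_gt_d9
    have h5 : (0 : ℝ) ≤ Nat.log 2 H := Nat.cast_nonneg _
    rw [hJ]
    push_cast
    nlinarith
  have hsub : BB ⊆ LR (n + 2) T H ∪ (range J).biUnion B := by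
    intro a ha
    obtain ⟨ha1, ha2, ξ, hξ0, p, q, hHq, hqκ, hle⟩ := hB a ha
    rw [Finset.mem_union]
    by_cases hξ : (T : ℝ) < |ξ|
    · left
      unfold Pool.Agent.Results.MP_c307ca_nt.AlmostAllToHeight.LR
      rw [Finset.mem_filter]
      exact ⟨mem_box ha1, ha2, lead_small (n + 2) T H hT a ha1 ξ hξ0 hξ⟩
    · right
      rw [not_lt] at hξ
      set j : ℕ := Nat.log 2 (q / H) with hj
      have hqH0 : q / H ≠ 0 := (Nat.div_pos hHq.le (by omega)).ne'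
      have hj1 : 2 ^ j * H ≤ q := by
        have h1 : 2 ^ j ≤ q / H := Nat.pow_log_le_self 2 hqH0
        exact (Nat.le_div_iff_mul_le (by omega)).mp h1
      have hj2 : q < 2 * (2 ^ j * H) := by
        have h1 : q / H < 2 ^ (j + 1) := Nat.lt_pow_succ_log_self (by norm_num) _
        have h2 : q < 2 ^ (j + 1) * H := (Nat.div_lt_iff_lt_mul (by omega)).mp h1
        calc q < 2 ^ (j + 1) * H := h2
          _ = 2 * (2 ^ j * H) := by ring
      have hjJ : j ∈ range J := by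
        rw [mem_range, hJ, hj]
        have h1 : (q : ℝ) ≤ (H : ℝ) ^ 2 := hqκ.trans hκ2
        have h2 : q ≤ H ^ 2 := by exact_mod_cast h1
        have h4 : q / H ≤ H := by
          apply Nat.div_le_of_le_mul
          calc q ≤ H ^ 2 := h2
            _ = H * H := by ring
        exact Nat.lt_succ_of_le (Nat.log_mono_right h4)
      rw [mem_biUnion]
      refine ⟨j, hjJ, ?_⟩
      have hQκ : ((2 ^ j * H : ℕ) : ℝ) ≤ (H : ℝ) ^ κ := by
        have : ((2 ^ j * H : ℕ) : ℝ) ≤ q := by exact_mod_cast hj1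
        exact this.trans hqκ
      have hw1 : c * w ε q ≤ 1 := by
        have h5 : 0 < Real.log 2 ^ (1 + ε) := by
          have : (0 : ℝ) < Real.log 2 := Real.log_pos (by norm_num)
          positivity
        calc c * w ε q ≤ Real.log 2 ^ (1 + ε) * (1 / Real.log 2 ^ (1 + ε)) :=
              mul_le_mul hc1 (w_le ε hε q) (w_pos ε q).le h5.le
          _ = 1 := by field_simp
      have hy : |(p : ℝ) / q| ≤ T + 1 := by
        have h6 : (p : ℝ) / q = ξ - (ξ - (p : ℝ) / q) := by ring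
        rw [h6]
        refine (abs_sub _ _).trans ?_
        linarith
      have hξ' : |ξ| ≤ T + 1 := by linarith
      refine hB1 j hQκ a (mem_box ha1) p q hj1 hj2 hy ?_
      have h7 := ev_sub (n + 2) T H a ha1 ((p : ℝ) / q) ξ hy hξ'
      rw [hξ0, sub_zero] at h7
      have hHQ : H ≤ 2 ^ j * H := Nat.le_mul_of_pos_left H (by positivity)
      have h8 : |(p : ℝ) / q - ξ| ≤ w ε (2 ^ j * H) := by
        rw [abs_sub_comm]
        refine hle.trans ?_
        have h9 := w_anti ε hε hj1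
        have h10 := (w_pos ε q).le
        calc c * w ε q ≤ 1 * w ε q := mul_le_mul_of_nonneg_right hc h10
          _ = w ε q := one_mul _
          _ ≤ _ := h9
      have h9 := w_eq ε 1 (2 ^ j * H) (by omega)
      rw [one_mul] at h9
      calc |ev a ((p : ℝ) / q)| ≤ KC * H * |(p : ℝ) / q - ξ| := h7
        _ ≤ KC * H * w ε (2 ^ j * H) := mul_le_mul_of_nonneg_left h8 (by positivity)
        _ = _ := by rw [← h9, mul_one_div]
  have hcard : (BB.card : ℝ) ≤ ((LR (n + 2) T H).card : ℝ) + ∑ j ∈ range J, ((B j).card : ℝ) := by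
    have h1 := (Finset.card_le_card hsub).trans (Finset.card_union_le _ _)
    have h2 : ((range J).biUnion B).card ≤ ∑ j ∈ range J, (B j).card := Finset.card_biUnion_le
    exact_mod_cast h1.trans (Nat.add_le_add_left h2 _)
  have hLR := card_LR (n + 2) T H hT hH1
  have hsum : ∑ j ∈ range J, ((B j).card : ℝ) ≤ (H : ℝ) ^ (n + 3) * η := by
    refine (Finset.sum_le_sum fun j _ => hB2 j).trans ?_
    rw [Finset.sum_const, card_range, nsmul_eq_mul]
    have hl0 : 0 < Real.log H := by linarith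
    have h1 : Real.log H ^ (1 + ε) = Real.log H * Real.log H ^ ε := by
      rw [Real.rpow_add hl0, Real.rpow_one]
    rw [div_le_iff₀ hη] at hC
    have h2 : 0 < Real.log H ^ ε := by positivity
    calc (J : ℝ) * (C2 * ((H : ℝ) ^ (n + 3) / Real.log H ^ (1 + ε)))
        ≤ (3 * Real.log H) * (C2 * ((H : ℝ) ^ (n + 3) / Real.log H ^ (1 + ε))) :=
          mul_le_mul_of_nonneg_right hJ3 (by positivity)
      _ = (H : ℝ) ^ (n + 3) * (3 * C2 / Real.log H ^ ε) := by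
          rw [h1]
          field_simp
      _ ≤ (H : ℝ) ^ (n + 3) * η := by
          refine mul_le_mul_of_nonneg_left ?_ (by positivity)
          rw [div_le_iff₀ h2]
          linarith
  calc (BB.card : ℝ) ≤ ((LR (n + 2) T H).card : ℝ) + ∑ j ∈ range J, ((B j).card : ℝ) := hcard
    _ ≤ (H : ℝ) ^ (n + 2 + 1) * (2 * 3 ^ (n + 2) / (T - 1)) + (H : ℝ) ^ (n + 3) * η :=
        add_le_add hLR hsum
    _ = _ := by ring

open Polynomial in
/-- the set of numbers with a good approximation beyond the height -/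
theorem new_count (n : ℕ) (κ ε η c : ℝ) (hε : 0 < ε) (hη : 0 < η)
    (hκ : κ < 3 / 2) (hc0 : 0 < c) (hc : c ≤ 1) (hc1 : c ≤ Real.log 2 ^ (1 + ε)) :
    ∀ᶠ H : ℕ in atTop,
      {ξ : ℝ | (∃ P : Polynomial ℤ, P.natDegree = n + 2 ∧ (∀ i, |P.coeff i| ≤ (H : ℤ)) ∧
          Irreducible (P.map (Int.castRingHom ℚ)) ∧ Polynomial.aeval ξ P = 0) ∧
        ∃ (p : ℤ) (q : ℕ), H < q ∧ (q : ℝ) ≤ (H : ℝ) ^ κ ∧
          |ξ - (p : ℝ) / q| ≤ c * w ε q}.Finite ∧
      ({ξ : ℝ | (∃ P : Polynomial ℤ, P.natDegree = n + 2 ∧ (∀ i, |P.coeff i| ≤ (H : ℤ)) ∧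
          Irreducible (P.map (Int.castRingHom ℚ)) ∧ Polynomial.aeval ξ P = 0) ∧
        ∃ (p : ℤ) (q : ℕ), H < q ∧ (q : ℝ) ≤ (H : ℝ) ^ κ ∧
          |ξ - (p : ℝ) / q| ≤ c * w ε q}.ncard : ℝ) ≤ η * (H : ℝ) ^ (n + 3) := by
  classical
  set d : ℝ := ((n + 2 : ℕ) : ℝ) with hd
  have hd0 : (0 : ℝ) < d := by
    rw [hd]
    positivity
  set T : ℕ := ⌈4 * d * 3 ^ (n + 2) / η⌉₊ + 2 with hTdef
  have hT : 2 ≤ T := by omega
  have hT1 : 4 * d * 3 ^ (n + 2) / η ≤ (T : ℝ) - 1 := by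
    have h1 := Nat.le_ceil (4 * d * 3 ^ (n + 2) / η)
    rw [hTdef]
    push_cast
    linarith
  have hT2 : (2 : ℝ) ≤ T := by exact_mod_cast hT
  have hT3 : (0 : ℝ) < (T : ℝ) - 1 := by linarith
  have hTη : 2 * 3 ^ (n + 2) / ((T : ℝ) - 1) ≤ η / (2 * d) := by
    rw [div_le_iff₀ hη] at hT1
    rw [div_le_div_iff₀ hT3 (by positivity)]
    nlinarith
  filter_upwards [coeff_count n T hT κ ε (η / (2 * d)) c hε (by positivity) hκ hc0 hc hc1] with H hH
  set S : Set ℝ := {ξ : ℝ | (∃ P : Polynomial ℤ, P.natDegree = n + 2 ∧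
      (∀ i, |P.coeff i| ≤ (H : ℤ)) ∧
          Irreducible (P.map (Int.castRingHom ℚ)) ∧ Polynomial.aeval ξ P = 0) ∧
        ∃ (p : ℤ) (q : ℕ), H < q ∧ (q : ℝ) ≤ (H : ℝ) ^ κ ∧
          |ξ - (p : ℝ) / q| ≤ c * w ε q} with hS
  set BB : Finset (Fin (n + 3) → ℤ) :=
    (Pool.Agent.Results.MP_c307ca_nt.AlmostAllToHeight.box (n + 3) (H : ℤ)).filter (fun a =>
    ∃ P : Polynomial ℤ, (fun i : Fin (n + 2 + 1) => P.coeff i) = a ∧ P.natDegree = n + 2 ∧
      (∀ i, |P.coeff i| ≤ (H : ℤ)) ∧ Irreducible (P.map (Int.castRingHom ℚ)) ∧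
      ∃ ξ : ℝ, Polynomial.aeval ξ P = 0 ∧ ∃ (p : ℤ) (q : ℕ), H < q ∧ (q : ℝ) ≤ (H : ℝ) ^ κ ∧
          |ξ - (p : ℝ) / q| ≤ c * w ε q) with hBB
  have hcount := hH BB (by
    intro a ha
    rw [hBB, Finset.mem_filter] at ha
    obtain ⟨_, P, hPa, hPd, hPH, hPirr, ξ, hξ, p, q, hqH, hqκ, hle⟩ := ha
    subst hPa
    refine ⟨fun i => hPH i, ?_, ξ, ?_, p, q, hqH, hqκ, hle⟩
    · have h1 : P ≠ 0 := by
        intro h0
        rw [h0, Polynomial.natDegree_zero] at hPd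
        omega
      have h2 : P.coeff (n + 2) ≠ 0 := by
        rw [← hPd]
        exact Polynomial.leadingCoeff_ne_zero.mpr h1
      simpa using h2
    · rw [ev_eq_aeval (n + 2) P hPd]
      exact hξ)
  set U : Finset ℝ := BB.biUnion (fun a => ((polZ a).map (Int.castRingHom ℝ)).roots.toFinset)
    with hU
  have hSU : S ⊆ (U : Set ℝ) := by
    rintro ξ ⟨⟨P, hPd, hPH, hPirr, hξ⟩, hpq⟩
    rw [hU, Finset.mem_coe, Finset.mem_biUnion]
    refine ⟨fun i : Fin (n + 2 + 1) => P.coeff i, ?_, ?_⟩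
    · rw [hBB, Finset.mem_filter]
      exact ⟨mem_box fun i => hPH i, P, rfl, hPd, hPH, hPirr, ξ, hξ, hpq⟩
    · rw [polZ_coeff (n + 2) P hPd, Multiset.mem_toFinset, Polynomial.mem_roots',
        Polynomial.IsRoot, Polynomial.eval_map]
      refine ⟨?_, hξ⟩
      rw [Polynomial.map_ne_zero_iff (RingHom.injective_int (Int.castRingHom ℝ))]
      intro h0
      rw [h0, Polynomial.natDegree_zero] at hPd
      omega
  have hUcard : U.card ≤ BB.card * (n + 2) := by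
    refine Finset.card_biUnion_le_card_mul _ _ _ fun a ha => ?_
    rw [hBB, Finset.mem_filter] at ha
    obtain ⟨_, P, hPa, hPd, _⟩ := ha
    have hpa : polZ a = P := by
      rw [← hPa]
      exact polZ_coeff (n + 2) P hPd
    rw [hpa]
    refine (Multiset.toFinset_card_le _).trans ((Polynomial.card_roots' _).trans ?_)
    exact Polynomial.natDegree_map_le.trans hPd.le
  refine ⟨U.finite_toSet.subset hSU, ?_⟩
  have h1 : S.ncard ≤ U.card := by
    rw [← Set.ncard_coe_finset]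
    exact Set.ncard_le_ncard hSU U.finite_toSet
  have h2 : (S.ncard : ℝ) ≤ (BB.card : ℝ) * d := by
    rw [hd]
    exact_mod_cast h1.trans hUcard
  refine h2.trans ?_
  have hHp : (0 : ℝ) ≤ (H : ℝ) ^ (n + 3) := by positivity
  calc (BB.card : ℝ) * d ≤ ((H : ℝ) ^ (n + 3) * (2 * 3 ^ (n + 2) / (T - 1) + η / (2 * d))) * d :=
        mul_le_mul_of_nonneg_right hcount hd0.le
    _ ≤ (H : ℝ) ^ (n + 3) * (η / (2 * d) + η / (2 * d)) * d := by
        refine mul_le_mul_of_nonneg_right ?_ hd0.le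
        exact mul_le_mul_of_nonneg_left (by linarith) hHp
    _ = η * (H : ℝ) ^ (n + 3) := by
        field_simp
        ring

end Pool.Agent.TH42.LA
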